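import Pool.Agent.Work.MP_8f87b2_fin.PartK
import Pool.Agent.Work.MP_8f87b2_h76.Single

/-!
# MP_8f87b2_co: DOWN links over a bare word: existence and the classes

`TyC.ex38`: the right content link `(U)[c]`, `U[c+1]`, `[c]()U` over a bare word `U` (all parts at least `c + 1`).
`dn_group`: the case `c = 2` in coordinates, `U = inf (inf v)`. `part_dn`: the classes of `z = U[3]` and of `y = (())()U`.
-/

set_option autoImplicit false

namespace Pool.OddHC

open Finset BinaryTree Multiset Pool.OddHop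

variable {i j j2 k : ℕ}

theorem pc_ht38 (n : ℕ) : ht (pc n) ≤ n := by
  induction n with
  | zero => exact Nat.le_refl _
  | succ n ih =>
    change ht (pc n △ .nil) ≤ n + 1
    rw [ht_node]
    have : ht (BinaryTree.nil : BinaryTree Unit) = 0 := rfl
    omega

/-- **existence of a right content link over a bare word** -/
theorem TyC.ex38 {c : ℕ} (hc : 1 ≤ c) {U : BinaryTree Unit} (hU : U ≠ .nil) (hm : ∀ x ∈ cont U, c + 1 ≤ x)
    (hk : U.numNodes + c + 1 = k) : ∃ (a z y : X k) (g : DG k), a.1 = w1 .nil U (pc c) ∧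
      z.1 = app U (pc (c + 1)) ∧ y.1 = app (pc c) (.nil △ U) ∧ cyc z ≠ cyc y ∧ TyC c U {cyc z, cyc y} g := by
  have ha : (w1 .nil U (pc c)).numNodes = k := by
    change (app .nil (U △ pc c)).numNodes = k
    rw [num_app]
    change 0 + (U.numNodes + (pc c).numNodes + 1) = k
    rw [pc_num]
    omega
  have hz : (app U (pc (c + 1))).numNodes = k := by
    rw [num_app, pc_num]
    omega
  have hy : (app (pc c) (.nil △ U)).numNodes = k := by
    rw [num_app, pc_num]
    change c + (0 + U.numNodes + 1) = k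
    omega
  obtain ⟨a, ha'⟩ : ∃ a : X k, a.1 = w1 .nil U (pc c) := ⟨⟨_, mem_treesOfNumNodesEq.2 ha⟩, rfl⟩
  obtain ⟨z, hz'⟩ : ∃ a : X k, a.1 = app U (pc (c + 1)) := ⟨⟨_, mem_treesOfNumNodesEq.2 hz⟩, rfl⟩
  obtain ⟨y, hy'⟩ : ∃ a : X k, a.1 = app (pc c) (.nil △ U) := ⟨⟨_, mem_treesOfNumNodesEq.2 hy⟩, rfl⟩
  have cz : cont z.1 = cont U + {c + 1} := by rw [hz', cont_app, cont_pc]
  have cy : cont y.1 = cont (pc c) + ({1} + cont U) := by rw [hy', cont_app, cont_node, cont_nil, raise_zero]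
  have hne : cyc z ≠ cyc y := by
    intro e
    have e1 : cont z.1 = cont y.1 := cont_same (cyc_eq.1 e)
    have h1 : 1 ∈ cont z.1 := by
      rw [e1, cy]
      exact Multiset.mem_add.2 (Or.inr (Multiset.mem_add.2 (Or.inl (Multiset.mem_singleton_self _))))
    rw [cz] at h1
    rcases Multiset.mem_add.1 h1 with h2 | h2
    · have := hm 1 h2
      omega
    · have := Multiset.mem_singleton.1 h2
      omega
  -- heights
  have hUt : c + 1 ≤ ht U := by
    obtain ⟨x, hx⟩ : ∃ x, x ∈ cont U := by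
      apply Multiset.exists_mem_of_ne_zero
      intro h0
      apply hU
      have h1 := cont_sum U
      rw [h0, Multiset.sum_zero] at h1
      cases U with
      | nil => rfl
      | node _ A B =>
        change 0 = A.numNodes + B.numNodes + 1 at h1
        omega
    have := hm x hx
    rw [ht_eq]
    exact this.trans (Multiset.le_sup hx)
  have hz1 : ht z.1 = ht U := by
    rw [hz', ht_app]
    have := pc_ht38 (c + 1)
    omega
  have hy1 : ht y.1 = ht U := by
    rw [hy', ht_app]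
    have h1 := pc_ht38 c
    have h2 : ht (.nil △ U) = max (ht .nil + 1) (ht U) := ht_node .nil U
    have h3 : ht (BinaryTree.nil : BinaryTree Unit) = 0 := rfl
    omega
  have ha1 : ht U < ht a.1 := by
    rw [ha']
    change ht U < ht (U △ pc c)
    rw [ht_node]
    omega
  refine ⟨a, z, y, pDG {a, z, y} (cyc z) (cyc y) ∅, ha', hz', hy', hne, ?_⟩
  unfold TyC
  rw [H1.ch_eq]
  exact ⟨a, z, y, ha', hz', hy', hne, by rw [htc_cyc, htc_cyc, hz1, hy1], by
    rw [htc_cyc, htc_cyc, hz1]; exact ha1, rfl, rfl⟩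

theorem inf_num38 (t : BinaryTree Unit) : (inf t).numNodes = t.numNodes + pkn t := by
  have h := (ins_num t (List.replicate (2 * t.numNodes + 1) 0) List.length_replicate).1
  rw [List.sum_replicate] at h
  unfold inf
  simpa using h

theorem inf_pkn38 (t : BinaryTree Unit) : pkn (inf t) = pkn t := by
  rw [← cont_card, ← cont_card, cont_inf, Multiset.card_map]

/-- the word `() inf v` -/
theorem ins_lead (v : X j2) : ins v.1 (1 :: List.replicate (2 * j2) 0) = .nil △ inf v.1 := by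
  have e : inf v.1 = ins v.1 (0 :: List.replicate (2 * j2) 0) := by
    unfold inf
    rw [X_num]
    rfl
  rw [e]
  cases h : v.1 with
  | nil => rfl
  | node _ A B => rfl

/-- the word `(())() inf t` -/
theorem ins_lead2 (t : BinaryTree Unit) :
    ins (.nil △ t) (0 :: 0 :: 1 :: List.replicate (2 * t.numNodes) 0) = (.nil △ .nil) △ (.nil △ inf t) := by
  have h1 : ins t (1 :: List.replicate (2 * t.numNodes) 0) = .nil △ inf t := by
    have e : inf t = ins t (0 :: List.replicate (2 * t.numNodes) 0) := rfl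
    rw [e]
    cases t with
    | nil => rfl
    | node _ A B => rfl
  have h2 : ins (.nil △ t) (0 :: 0 :: 1 :: List.replicate (2 * t.numNodes) 0) =
      (.nil △ .nil) △ ins t (1 :: List.replicate (2 * t.numNodes) 0) := rfl
  rw [h2, h1]

variable {τ : Type} {P : τ → Set (Cyc k) → DG k → Prop} {V : Cyc j2}

/-- parts of `inf (inf v)` -/
theorem inf2_min (t : BinaryTree Unit) : ∀ x ∈ cont (inf (inf t)), 3 ≤ x := by
  intro x hx
  rw [cont_inf, cont_inf, Multiset.map_map, Multiset.mem_map] at hx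
  obtain ⟨y, hy, rfl⟩ := hx
  have := cont_pos t y hy
  simp only [Function.comp_apply]
  omega

/-- **THE DOWN GROUP over `U = inf (inf v)`**: `z = U[3]`, `y = (())()U` in the class `(V; 1, 1)` -/
theorem dn_group (v : X j2) (hv : cyc v = V) (h1 : 1 ≤ pkc V) (hk : j2 + 2 * pkc V + 3 = k) :
    ∃ (u : X (j2 + pkc V + 1)) (z y : X k) (g : DG k),
      z.1 = app (inf (inf v.1)) (pc 3) ∧ y.1 = (.nil △ .nil) △ (.nil △ inf (inf v.1)) ∧
      Rd (cyc y) = ⟨j2 + pkc V + 1, cyc u⟩ ∧ Rd (cyc u) = ⟨j2, V⟩ ∧ cl (cyc y) ∈ vcl k V 1 ∧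
      1 ∉ contc (cyc z) ∧ 2 ∉ contc (cyc z) ∧ cyc z ≠ cyc y ∧
      TyC 2 (inf (inf v.1)) {cyc z, cyc y} g := by
  have hp : pkn v.1 = pkc V := by rw [← pkc_cyc, hv]
  have hne : inf (inf v.1) ≠ .nil := by
    apply inf_ne_nil
    apply inf_ne_nil
    intro e
    have h2 := cont_card v.1
    rw [e] at h2
    have h3 : Multiset.card (cont (BinaryTree.nil : BinaryTree Unit)) = 0 := rfl
    rw [h3] at h2
    rw [e, ← h2] at hp
    omega
  have hU : (inf (inf v.1)).numNodes + 2 + 1 = k := by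
    rw [inf_num38, inf_num38, inf_pkn38, hp, X_num]
    omega
  obtain ⟨a, z, y, g, ha, hz, hy, hzy, hT⟩ := TyC.ex38 (c := 2) (by norm_num) hne (inf2_min v.1) hU
  -- the ring
  have hu0 : (.nil △ inf v.1 : BinaryTree Unit).numNodes = j2 + pkc V + 1 := by
    change 0 + (inf v.1).numNodes + 1 = _
    rw [inf_num38, hp, X_num]
    omega
  obtain ⟨u, hu⟩ : ∃ u : X (j2 + pkc V + 1), u.1 = .nil △ inf v.1 := ⟨⟨_, mem_treesOfNumNodesEq.2 hu0⟩, rfl⟩
  have hRu : Rd (cyc u) = ⟨j2, V⟩ := by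
    have h5 := Rd_ins (u := v) (e := 1 :: List.replicate (2 * j2) 0) (by simp) (w := u) (by rw [hu, ins_lead])
    rwa [hv] at h5
  have hy2 : y.1 = (.nil △ .nil) △ (.nil △ inf (inf v.1)) := hy
  have hRy : Rd (cyc y) = ⟨j2 + pkc V + 1, cyc u⟩ := by
    refine Rd_ins (e := 0 :: 0 :: 1 :: List.replicate (2 * (inf v.1).numNodes) 0) ?_ ?_
    · rw [List.length_cons, List.length_cons, List.length_cons, List.length_replicate, inf_num38, hp, X_num]
      ring
    · rw [hu, ins_lead2, hy2]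
  have hcz : contc (cyc z) = cont (inf (inf v.1)) + {3} := by
    rw [contc_cyc, hz, cont_app, cont_pc]
  refine ⟨u, z, y, g, hz, hy2, hRy, hRu, (vcl_iff hRy hRu).2 rfl, ?_, ?_, hzy, hT⟩ <;>
  · rw [hcz]
    intro h2
    rcases Multiset.mem_add.1 h2 with h3 | h3
    · have := inf2_min v.1 _ h3
      omega
    · have := Multiset.mem_singleton.1 h3
      omega

/-- **PART: the DOWN group**, the class of `z` and the class `(V; 1, 1)` -/
theorem part_dn (v : X j2) (hv : cyc v = V) (h1 : 1 ≤ pkc V) (hk : j2 + 2 * pkc V + 3 = k)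
    (env : ∀ p0 : Cyc k, Rd (Rd p0).2 = ⟨j2, V⟩ → ClsEnv (AEP P) P P (cl p0))
    (dty : ∀ F g, TyC 2 (inf (inf v.1)) F g → Typd P P F) :
    ∃ z : X k, z.1 = app (inf (inf v.1)) (pc 3) ∧
      ClsReg P ({cl (cyc z)} ∪ vcl k V 1 : Set (RD × Multiset ℕ)) := by
  obtain ⟨u, z, y, g, hz, hy, hRy, hRu, hcy, hz1, hz2, hzy, hT⟩ := dn_group v hv h1 hk
  refine ⟨z, hz, {{cyc z, cyc y}}, ?_, ?_, ?_⟩
  · rintro F hF
    rw [Set.mem_singleton_iff] at hF
    subst hF
    refine ⟨⟨_, Or.inl rfl⟩, dty _ g hT, ?_⟩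
    rintro c (rfl | rfl)
    · exact Or.inl rfl
    · exact Or.inr hcy
  · rintro F hF F' hF' c _ _
    rw [Set.mem_singleton_iff] at hF hF'
    rw [hF, hF']
  · rintro p0 (hp0 | hp0)
    · have e : p0 = cyc z := cl_single hz1 hz2 hp0
      subst e
      refine ⟨∅, ∅, cls_inX hz1 hz2 ?_⟩
      rw [inG_single]
      exact Or.inl rfl
    · -- the class `(V; 1, 1)`
      obtain ⟨U1, a1, a2, a3, a4, a5⟩ := vcl_data (j := j2 + pkc V + 1) (m := 1) (by omega) hp0 rfl
      rw [inG_single]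
      have hRU : Rd (cyc u) = Rd U1 := by rw [hRu, a2]
      have hc : (contc (cyc u)).count 1 = 1 := by rw [Rd_contc hRU, a3]
      refine r1_guest (env p0 (mem_vcl.1 hp0).1) a1 (by norm_num) a5 (oddF_one _) (cyc y) (cyc u) hRU hRy
        (by rw [hc]; exact oddF_one _) ?_ (fun h => by rw [hc] at h; exact absurd h (by norm_num))
        (fun h => absurd h (by norm_num))
      intro c hcc
      constructor
      · rintro (rfl | rfl)
        · exfalso
          -- the content of `z` has no part 1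
          have h2 : contc (cyc z) = contc p0 := congrArg Prod.snd hcc
          have h3 : (contc p0).count 1 = 1 := by
            have := count_class (m := 1) (p := p0) a1 a5 a1 rfl
            exact this
          rw [← h2, Multiset.count_eq_zero.2 hz1] at h3
          omega
        · rfl
      · rintro rfl
        exact Or.inr rfl

/-- the word `(()()) inf t` -/
theorem ins_lead3 (t : BinaryTree Unit) :
    ins (.nil △ t) (0 :: 1 :: 0 :: List.replicate (2 * t.numNodes) 0) = (.nil △ (.nil △ .nil)) △ inf t := rfl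

/-- a pile in the last gap -/
theorem ins_pile38 (C : BinaryTree Unit) (m : ℕ) :
    ins C (List.replicate (2 * C.numNodes) 0 ++ [m]) = app (inf C) (lp m) := by
  induction C with
  | nil => rfl
  | node _ A B _ ih =>
    have e1 : (BinaryTree.node () A B).numNodes = A.numNodes + B.numNodes + 1 := rfl
    have e2 : List.replicate (2 * (BinaryTree.node () A B).numNodes) 0 ++ [m] =
        0 :: (List.replicate (2 * A.numNodes + 1) 0 ++ (List.replicate (2 * B.numNodes) 0 ++ [m])) := by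
      rw [← List.append_assoc, List.replicate_append_replicate, e1, ← List.cons_append,
        ← List.replicate_succ]
      congr 2
      ring
    have e3 : (BinaryTree.node () A B) = A △ B := rfl
    rw [e2, e3, ins, List.headD_cons, List.tail_cons, List.take_left' List.length_replicate,
      List.drop_succ_cons, List.drop_left' List.length_replicate, ih]
    have e4 := ins_bump A 0
    rw [lv] at e4
    rw [List.replicate_succ (n := 2 * A.numNodes), e4, lv, inf_node, app]

/-- **the words `z = U[3]`, `t = U()()()`, `y = (()())U` over `U = inf (inf v)`** -/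
theorem dn_three (v : X j2) (hv : cyc v = V) (hk : j2 + 2 * pkc V + 3 = k) :
    ∃ (u0 : X (j2 + pkc V)) (u : X (j2 + pkc V + 1)) (z t y : X k),
      z.1 = app (inf (inf v.1)) (pc 3) ∧ t.1 = app (inf (inf v.1)) (lp 3) ∧
      y.1 = (.nil △ (.nil △ .nil)) △ inf (inf v.1) ∧
      Rd (cyc t) = ⟨j2 + pkc V, cyc u0⟩ ∧ Rd (cyc u0) = ⟨j2, V⟩ ∧ cl (cyc t) ∈ vcl k V 0 ∧
      Rd (cyc y) = ⟨j2 + pkc V + 1, cyc u⟩ ∧ Rd (cyc u) = ⟨j2, V⟩ ∧ cl (cyc y) ∈ vcl k V 1 ∧
      1 ∉ contc (cyc z) ∧ 2 ∉ contc (cyc z) := by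
  have hp : pkn v.1 = pkc V := by rw [← pkc_cyc, hv]
  have hi : (inf v.1).numNodes = j2 + pkc V := by rw [inf_num38, hp, X_num]
  have hii : (inf (inf v.1)).numNodes = j2 + 2 * pkc V := by
    rw [inf_num38, hi, inf_pkn38, hp]
    ring
  have hz : (app (inf (inf v.1)) (pc 3)).numNodes = k := by rw [num_app, pc_num, hii]; exact hk
  have ht : (app (inf (inf v.1)) (lp 3)).numNodes = k := by rw [num_app, lp_num, hii]; exact hk
  have hy : ((.nil △ (.nil △ .nil)) △ inf (inf v.1) : BinaryTree Unit).numNodes = k := by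
    change (0 + (0 + 0 + 1) + 1) + (inf (inf v.1)).numNodes + 1 = k
    omega
  obtain ⟨z, hz'⟩ : ∃ a : X k, a.1 = app (inf (inf v.1)) (pc 3) := ⟨⟨_, mem_treesOfNumNodesEq.2 hz⟩, rfl⟩
  obtain ⟨t, ht'⟩ : ∃ a : X k, a.1 = app (inf (inf v.1)) (lp 3) := ⟨⟨_, mem_treesOfNumNodesEq.2 ht⟩, rfl⟩
  obtain ⟨y, hy'⟩ : ∃ a : X k, a.1 = (.nil △ (.nil △ .nil)) △ inf (inf v.1) :=
    ⟨⟨_, mem_treesOfNumNodesEq.2 hy⟩, rfl⟩
  obtain ⟨u0, hu0⟩ : ∃ a : X (j2 + pkc V), a.1 = inf v.1 := ⟨⟨_, mem_treesOfNumNodesEq.2 hi⟩, rfl⟩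
  obtain ⟨u, hu⟩ : ∃ u : X (j2 + pkc V + 1), u.1 = .nil △ inf v.1 :=
    ⟨⟨_, mem_treesOfNumNodesEq.2 (by change 0 + (inf v.1).numNodes + 1 = _; omega)⟩, rfl⟩
  have hR0 : Rd (cyc u0) = ⟨j2, V⟩ := by
    have h5 := Rd_ins (u := v) (e := List.replicate (2 * j2 + 1) 0) (by simp) (w := u0)
      (by rw [hu0, inf, X_num])
    rwa [hv] at h5
  have hR1 : Rd (cyc u) = ⟨j2, V⟩ := by
    have h5 := Rd_ins (u := v) (e := 1 :: List.replicate (2 * j2) 0) (by simp) (w := u) (by rw [hu, ins_lead])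
    rwa [hv] at h5
  have hRt : Rd (cyc t) = ⟨j2 + pkc V, cyc u0⟩ := by
    refine Rd_ins (e := List.replicate (2 * (inf v.1).numNodes) 0 ++ [3]) ?_ ?_
    · rw [List.length_append, List.length_replicate, hi]
      rfl
    · rw [hu0, ins_pile38, ht']
  have hRy : Rd (cyc y) = ⟨j2 + pkc V + 1, cyc u⟩ := by
    refine Rd_ins (e := 0 :: 1 :: 0 :: List.replicate (2 * (inf v.1).numNodes) 0) ?_ ?_
    · rw [List.length_cons, List.length_cons, List.length_cons, List.length_replicate, hi]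
      ring
    · rw [hu, ins_lead3, hy']
  have hcz : contc (cyc z) = cont (inf (inf v.1)) + {3} := by
    rw [contc_cyc, hz', cont_app, cont_pc]
  refine ⟨u0, u, z, t, y, hz', ht', hy', hRt, hR0, (vcl_iff hRt hR0).2 rfl, hRy, hR1, (vcl_iff hRy hR1).2 rfl,
    ?_, ?_⟩ <;>
  · rw [hcz]
    intro h2
    rcases Multiset.mem_add.1 h2 with h3 | h3
    · have := inf2_min v.1 _ h3
      omega
    · have := Multiset.mem_singleton.1 h3
      omega

/-- a class over `V` with ones does not contain a bare T-cycle -/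
theorem vcl_ne_bare {a m : ℕ} (hm : 1 ≤ m) (hk : j2 + 2 * pkc V + 2 * a + m = k) {p0 z : Cyc k}
    (hp0 : cl p0 ∈ vcl k V a) (hz : 1 ∉ contc z) : cl z ≠ cl p0 := by
  intro h
  obtain ⟨U1, a1, a2, a3, a4, a5⟩ := vcl_data (j := j2 + pkc V + a) (m := m) hk hp0 rfl
  have h3 := count_class (m := m) (p := p0) a1 a5 a1 rfl
  have h2 : contc z = contc p0 := congrArg Prod.snd h
  rw [← h2, Multiset.count_eq_zero.2 hz] at h3
  omega

/-- **PART, `j` even: the group `{z, t, y}`**; the class of `z` and the classes `(V; 0, 3)`, `(V; 1, 1)` -/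
theorem part_three (v : X j2) (hv : cyc v = V) (hk : j2 + 2 * pkc V + 3 = k)
    (env : ∀ p0 : Cyc k, Rd (Rd p0).2 = ⟨j2, V⟩ → ClsEnv (AEP P) P P (cl p0)) (ho : oddF (j2 + pkc V) 3)
    (dty : ∀ z t y : X k, z.1 = app (inf (inf v.1)) (pc 3) → t.1 = app (inf (inf v.1)) (lp 3) →
      y.1 = (.nil △ (.nil △ .nil)) △ inf (inf v.1) → Typd P P {cyc z, cyc t, cyc y}) :
    ∃ z : X k, z.1 = app (inf (inf v.1)) (pc 3) ∧
      ClsReg P ({cl (cyc z)} ∪ (vcl k V 0 ∪ vcl k V 1) : Set (RD × Multiset ℕ)) := by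
  obtain ⟨u0, u, z, t, y, hz, ht, hy, hRt, hR0, hct, hRy, hR1, hcy, hz1, hz2⟩ := dn_three v hv hk
  refine ⟨z, hz, {{cyc z, cyc t, cyc y}}, ?_, ?_, ?_⟩
  · rintro F hF
    rw [Set.mem_singleton_iff] at hF
    subst hF
    refine ⟨⟨_, Or.inl rfl⟩, dty z t y hz ht hy, ?_⟩
    rintro c (rfl | rfl | rfl)
    · exact Or.inl rfl
    · exact Or.inr (Or.inl hct)
    · exact Or.inr (Or.inr hcy)
  · rintro F hF F' hF' c _ _
    rw [Set.mem_singleton_iff] at hF hF'
    rw [hF, hF']
  · have ca : ∀ {q : Cyc k} {a b : ℕ}, cl q ∈ vcl k V a → cl q ∈ vcl k V b → a = b := by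
      intro q a b h1 h2
      exact (mem_vcl.1 h1).2.symm.trans (mem_vcl.1 h2).2
    rw [inG_single]
    rintro p0 (hp0 | hp0 | hp0)
    · have e : p0 = cyc z := cl_single hz1 hz2 hp0
      subst e
      exact ⟨∅, ∅, cls_inX hz1 hz2 (Or.inl rfl)⟩
    · refine cls_t0 (m := 3) (by norm_num) hk env ho hRt hR0 (fun h => absurd h (by norm_num)) hp0 ?_
      intro q hq
      have hq' := (vcl_same hp0).1 hq
      constructor
      · rintro (rfl | rfl | rfl)
        · exact absurd hq (vcl_ne_bare (m := 3) (by norm_num) (by omega) hp0 hz1)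
        · rfl
        · exact absurd (ca hq' hcy) (by norm_num)
      · rintro rfl
        exact Or.inr (Or.inl rfl)
    · refine cls_z1 (m := 1) (by norm_num) (by omega) env (oddF_one _) hRy hR1 (fun h => absurd h (by norm_num)) hp0 ?_
      intro q hq
      have hq' := (vcl_same hp0).1 hq
      constructor
      · rintro (rfl | rfl | rfl)
        · exact absurd hq (vcl_ne_bare (m := 1) (by norm_num) (by omega) hp0 hz1)
        · exact absurd (ca hq' hct) (by norm_num)
        · rfl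
      · rintro rfl
        exact Or.inr (Or.inr rfl)

/-- **PART, `M = 3` with a guest of a bare T-cycle `z`**, both parities -/
theorem part_dn3 (v : X j2) (hv : cyc v = V) (h1 : 1 ≤ pkc V) (hk : j2 + 2 * pkc V + 3 = k)
    (env : ∀ p0 : Cyc k, Rd (Rd p0).2 = ⟨j2, V⟩ → ClsEnv (AEP P) P P (cl p0))
    (dty : ¬ oddF (j2 + pkc V) 3 → ∀ F g, TyC 2 (inf (inf v.1)) F g → Typd P P F)
    (dty3 : oddF (j2 + pkc V) 3 → ∀ z t y : X k, z.1 = app (inf (inf v.1)) (pc 3) →
      t.1 = app (inf (inf v.1)) (lp 3) → y.1 = (.nil △ (.nil △ .nil)) △ inf (inf v.1) →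
      Typd P P {cyc z, cyc t, cyc y}) :
    ∃ z : X k, z.1 = app (inf (inf v.1)) (pc 3) ∧
      ClsReg P ({cl (cyc z)} ∪ (vcl k V 0 ∪ vcl k V 1) : Set (RD × Multiset ℕ)) := by
  by_cases ho : oddF (j2 + pkc V) 3
  · exact part_three v hv hk env ho (dty3 ho)
  · obtain ⟨z, hz, h2⟩ := part_dn v hv h1 hk env (dty ho)
    refine ⟨z, hz, ?_⟩
    have h3 := part_even (P := P) (V := V) 3 (by norm_num) hk env ho
    have hz1 : 1 ∉ contc (cyc z) := by
      rw [contc_cyc, hz, cont_app, cont_pc]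
      intro h4
      rcases Multiset.mem_add.1 h4 with h5 | h5
      · have := inf2_min v.1 _ h5
        omega
      · have := Multiset.mem_singleton.1 h5
        omega
    refine (h2.union h3 ?_).congr ?_
    · rintro κ (hκ | ⟨p, rfl, hp⟩) hκ'
      · rw [Set.mem_singleton_iff] at hκ
        rw [hκ] at hκ'
        exact vcl_ne_bare (m := 3) (by norm_num) (by omega) hκ' hz1 rfl
      · have h5 := (mem_vcl.1 hκ').2
        have h6 := hp.2
        omega
    · intro p
      constructor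
      · rintro ((h4 | h4) | h4)
        · exact Or.inl h4
        · exact Or.inr (Or.inr h4)
        · exact Or.inr (Or.inl h4)
      · rintro (h4 | h4 | h4)
        · exact Or.inl (Or.inl h4)
        · exact Or.inr h4
        · exact Or.inl (Or.inr h4)

end Pool.OddHC
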