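import Pool.Agent.Work.MP_8f87b2_fin.PV
import Pool.Agent.Work.MP_8f87b2_h38.PartDn

/-!
# MP_8f87b2_co: bare T-cycles `z = U[3]` with a guest of the classes `(V; 0, 3)`, `(V; 1, 1)`, `M = 3` (with providers)

`PV.part_dn3`: `ClsReg P ({cl z} ∪ (vcl k V 0 ∪ vcl k V 1))`, both parities, group `{z, t, y}` or `{z, t}` in the odd case.
`PV.reg3`: all classes over `V`, `M = 3`. `reg_dn`: the union over all bare T-cycles and all `V`.
-/

set_option autoImplicit false

namespace Pool.OddHC.PV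

open Finset BinaryTree Multiset Pool.OddHop Pool.OddHC

variable {i j j2 k : ℕ}

variable {τ : Type} {P : τ → Set (Cyc k) → DG k → Prop} {V : Cyc j2}

/-- **PART: the DOWN group**, the class of `z` and the class `(V; 1, 1)` -/
theorem part_dn (v : X j2) (hv : cyc v = V) (h1 : 1 ≤ pkc V) (hk : j2 + 2 * pkc V + 3 = k)
    (env : ∀ p0 : Cyc k, Rd (Rd p0).2 = ⟨j2, V⟩ → ClsEnv (AEP P) P P (cl p0))
    (dty : ∀ F g, TyC 2 (inf (inf v.1)) F g → Typd P P F) :
    ∃ z : X k, z.1 = app (inf (inf v.1)) (pc 3) ∧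
      ClsReg P ({cl (cyc z)} ∪ vcl k V 1 : Set (RD × Multiset ℕ)) := by
  obtain ⟨u, z, y, g, hz, hy, hRy, hRu, hcy, hz1, hz2, hzy, hT⟩ := dn_group v hv h1 hk
  refine ⟨z, hz, {{cyc z, cyc y}}, ?_, ?_, ?_⟩
  · rintro F hF
    rw [Set.mem_singleton_iff] at hF
    subst hF
    refine ⟨⟨_, Or.inl rfl⟩, dty _ g hT, ?_⟩
    rintro c (rfl | rfl)
    · exact Or.inl rfl
    · exact Or.inr hcy
  · rintro F hF F' hF' c _ _
    rw [Set.mem_singleton_iff] at hF hF'
    rw [hF, hF']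
  · rintro p0 (hp0 | hp0)
    · have e : p0 = cyc z := cl_single hz1 hz2 hp0
      subst e
      refine ⟨∅, ∅, cls_inX hz1 hz2 ?_⟩
      rw [inG_single]
      exact Or.inl rfl
    · -- the class `(V; 1, 1)`
      obtain ⟨U1, a1, a2, a3, a4, a5⟩ := vcl_data (j := j2 + pkc V + 1) (m := 1) (by omega) hp0 rfl
      rw [inG_single]
      have hRU : Rd (cyc u) = Rd U1 := by rw [hRu, a2]
      have hc : (contc (cyc u)).count 1 = 1 := by rw [Rd_contc hRU, a3]
      refine r1_guest (env p0 (mem_vcl.1 hp0).1) a1 (by norm_num) a5 (oddF_one _) (cyc y) (cyc u) hRU hRy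
        (by rw [hc]; exact oddF_one _) ?_ (fun h => by rw [hc] at h; exact absurd h (by norm_num))
        (fun h => absurd h (by norm_num))
      intro c hcc
      constructor
      · rintro (rfl | rfl)
        · exfalso
          -- the content of `z` has no part 1
          have h2 : contc (cyc z) = contc p0 := congrArg Prod.snd hcc
          have h3 : (contc p0).count 1 = 1 := by
            have := count_class (m := 1) (p := p0) a1 a5 a1 rfl
            exact this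
          rw [← h2, Multiset.count_eq_zero.2 hz1] at h3
          omega
        · rfl
      · rintro rfl
        exact Or.inr rfl

/-- **PART, `j` even: the group `{z, t, y}`**; the class of `z` and the classes `(V; 0, 3)`, `(V; 1, 1)` -/
theorem part_three (v : X j2) (hv : cyc v = V) (hk : j2 + 2 * pkc V + 3 = k)
    (env : ∀ p0 : Cyc k, Rd (Rd p0).2 = ⟨j2, V⟩ → ClsEnv (AEP P) P P (cl p0)) (ho : oddF (j2 + pkc V) 3)
    (dty : ∀ z t y : X k, z.1 = app (inf (inf v.1)) (pc 3) → t.1 = app (inf (inf v.1)) (lp 3) →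
      y.1 = (.nil △ (.nil △ .nil)) △ inf (inf v.1) → Typd P P {cyc z, cyc t, cyc y}) :
    ∃ z : X k, z.1 = app (inf (inf v.1)) (pc 3) ∧
      ClsReg P ({cl (cyc z)} ∪ (vcl k V 0 ∪ vcl k V 1) : Set (RD × Multiset ℕ)) := by
  obtain ⟨u0, u, z, t, y, hz, ht, hy, hRt, hR0, hct, hRy, hR1, hcy, hz1, hz2⟩ := dn_three v hv hk
  refine ⟨z, hz, {{cyc z, cyc t, cyc y}}, ?_, ?_, ?_⟩
  · rintro F hF
    rw [Set.mem_singleton_iff] at hF
    subst hF
    refine ⟨⟨_, Or.inl rfl⟩, dty z t y hz ht hy, ?_⟩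
    rintro c (rfl | rfl | rfl)
    · exact Or.inl rfl
    · exact Or.inr (Or.inl hct)
    · exact Or.inr (Or.inr hcy)
  · rintro F hF F' hF' c _ _
    rw [Set.mem_singleton_iff] at hF hF'
    rw [hF, hF']
  · have ca : ∀ {q : Cyc k} {a b : ℕ}, cl q ∈ vcl k V a → cl q ∈ vcl k V b → a = b := by
      intro q a b h1 h2
      exact (mem_vcl.1 h1).2.symm.trans (mem_vcl.1 h2).2
    rw [inG_single]
    rintro p0 (hp0 | hp0 | hp0)
    · have e : p0 = cyc z := cl_single hz1 hz2 hp0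
      subst e
      exact ⟨∅, ∅, cls_inX hz1 hz2 (Or.inl rfl)⟩
    · refine cls_t0 (m := 3) (by norm_num) hk env ho hRt hR0 (fun h => absurd h (by norm_num)) hp0 ?_
      intro q hq
      have hq' := (vcl_same hp0).1 hq
      constructor
      · rintro (rfl | rfl | rfl)
        · exact absurd hq (vcl_ne_bare (m := 3) (by norm_num) (by omega) hp0 hz1)
        · rfl
        · exact absurd (ca hq' hcy) (by norm_num)
      · rintro rfl
        exact Or.inr (Or.inl rfl)
    · refine cls_z1 (m := 1) (by norm_num) (by omega) env (oddF_one _) hRy hR1 (fun h => absurd h (by norm_num)) hp0 ?_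
      intro q hq
      have hq' := (vcl_same hp0).1 hq
      constructor
      · rintro (rfl | rfl | rfl)
        · exact absurd hq (vcl_ne_bare (m := 1) (by norm_num) (by omega) hp0 hz1)
        · exact absurd (ca hq' hct) (by norm_num)
        · rfl
      · rintro rfl
        exact Or.inr (Or.inr rfl)

/-- **PART, `M = 3` with a guest of a bare T-cycle `z`**, both parities -/
theorem part_dn3 (v : X j2) (hv : cyc v = V) (h1 : 1 ≤ pkc V) (hk : j2 + 2 * pkc V + 3 = k)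
    (env : ∀ p0 : Cyc k, Rd (Rd p0).2 = ⟨j2, V⟩ → ClsEnv (AEP P) P P (cl p0))
    (dty : ¬ oddF (j2 + pkc V) 3 → ∀ F g, TyC 2 (inf (inf v.1)) F g → Typd P P F)
    (dty3 : oddF (j2 + pkc V) 3 → ∀ z t y : X k, z.1 = app (inf (inf v.1)) (pc 3) →
      t.1 = app (inf (inf v.1)) (lp 3) → y.1 = (.nil △ (.nil △ .nil)) △ inf (inf v.1) →
      Typd P P {cyc z, cyc t, cyc y}) :
    ∃ z : X k, z.1 = app (inf (inf v.1)) (pc 3) ∧
      ClsReg P ({cl (cyc z)} ∪ (vcl k V 0 ∪ vcl k V 1) : Set (RD × Multiset ℕ)) := by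
  by_cases ho : oddF (j2 + pkc V) 3
  · exact part_three v hv hk env ho (dty3 ho)
  · obtain ⟨z, hz, h2⟩ := part_dn v hv h1 hk env (dty ho)
    refine ⟨z, hz, ?_⟩
    have h3 := part_even (P := P) (V := V) 3 (by norm_num) hk env ho
    have hz1 : 1 ∉ contc (cyc z) := by
      rw [contc_cyc, hz, cont_app, cont_pc]
      intro h4
      rcases Multiset.mem_add.1 h4 with h5 | h5
      · have := inf2_min v.1 _ h5
        omega
      · have := Multiset.mem_singleton.1 h5
        omega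
    refine (h2.union h3 ?_).congr ?_
    · rintro κ (hκ | ⟨p, rfl, hp⟩) hκ'
      · rw [Set.mem_singleton_iff] at hκ
        rw [hκ] at hκ'
        exact vcl_ne_bare (m := 3) (by norm_num) (by omega) hκ' hz1 rfl
      · have h5 := (mem_vcl.1 hκ').2
        have h6 := hp.2
        omega
    · intro p
      constructor
      · rintro ((h4 | h4) | h4)
        · exact Or.inl h4
        · exact Or.inr (Or.inr h4)
        · exact Or.inr (Or.inl h4)
      · rintro (h4 | h4 | h4)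
        · exact Or.inl (Or.inl h4)
        · exact Or.inr h4
        · exact Or.inl (Or.inr h4)

/-- **PART, `j` even: the group `{z, t}`**; the class of `z` and the class `(V; 0, 3)` -/
theorem part_pair (v : X j2) (hv : cyc v = V) (hk : j2 + 2 * pkc V + 3 = k)
    (env : ∀ p0 : Cyc k, Rd (Rd p0).2 = ⟨j2, V⟩ → ClsEnv (AEP P) P P (cl p0)) (ho : oddF (j2 + pkc V) 3)
    (dty : ∀ z t : X k, z.1 = app (inf (inf v.1)) (pc 3) → t.1 = app (inf (inf v.1)) (lp 3) →
      Typd P P {cyc z, cyc t}) :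
    ∃ z : X k, z.1 = app (inf (inf v.1)) (pc 3) ∧
      ClsReg P ({cl (cyc z)} ∪ vcl k V 0 : Set (RD × Multiset ℕ)) := by
  obtain ⟨u0, u, z, t, y, hz, ht, hy, hRt, hR0, hct, hRy, hR1, hcy, hz1, hz2⟩ := dn_three v hv hk
  refine ⟨z, hz, {{cyc z, cyc t}}, ?_, ?_, ?_⟩
  · rintro F hF
    rw [Set.mem_singleton_iff] at hF
    subst hF
    refine ⟨⟨_, Or.inl rfl⟩, dty z t hz ht, ?_⟩
    rintro c (rfl | rfl)
    · exact Or.inl rfl
    · exact Or.inr hct
  · rintro F hF F' hF' c _ _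
    rw [Set.mem_singleton_iff] at hF hF'
    rw [hF, hF']
  · rw [inG_single]
    rintro p0 (hp0 | hp0)
    · have e : p0 = cyc z := cl_single hz1 hz2 hp0
      subst e
      exact ⟨∅, ∅, cls_inX hz1 hz2 (Or.inl rfl)⟩
    · refine cls_t0 (m := 3) (by norm_num) hk env ho hRt hR0 (fun h => absurd h (by norm_num)) hp0 ?_
      intro q hq
      constructor
      · rintro (rfl | rfl)
        · exact absurd hq (vcl_ne_bare (m := 3) (by norm_num) (by omega) hp0 hz1)
        · rfl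
      · rintro rfl
        exact Or.inr rfl

/-- **`M = 3`: the classes over `V`** are `(V; 0, 3)` and `(V; 1, 1)` -/
theorem over_three (hk : j2 + 2 * pkc V + 3 = k) {K : Set (RD × Multiset ℕ)}
    (h : ClsReg P (K ∪ (vcl k V 0 ∪ vcl k V 1))) : ClsReg P (K ∪ {κ | κ.1 = (⟨j2, V⟩ : RD)}) := by
  refine h.congr fun p => ?_
  constructor
  · rintro (h1 | h1 | h1)
    · exact Or.inl h1
    · exact Or.inr (mem_vcl.1 h1).1
    · exact Or.inr (mem_vcl.1 h1).1
  · rintro (h1 | h1)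
    · exact Or.inl h1
    · have h2 : Rd (Rd p).2 = ⟨j2, V⟩ := h1
      have h3 := ov_total h2
      obtain h4 | h4 : aa p = 0 ∨ aa p = 1 := by omega
      · exact Or.inr (Or.inl (mem_vcl.2 ⟨h2, h4⟩))
      · exact Or.inr (Or.inr (mem_vcl.2 ⟨h2, h4⟩))

/-- **one bare T-cycle `z = U[3]` with all classes over `V`**, `M = 3`, both parities, with one of two guests groups -/
theorem dn_all (v : X j2) (hv : cyc v = V) (h1 : 1 ≤ pkc V) (hk : j2 + 2 * pkc V + 3 = k)
    (env : ∀ p0 : Cyc k, Rd (Rd p0).2 = ⟨j2, V⟩ → ClsEnv (AEP P) P P (cl p0))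
    (dty : ¬ oddF (j2 + pkc V) 3 → ∀ F g, TyC 2 (inf (inf v.1)) F g → Typd P P F)
    (dty3 : oddF (j2 + pkc V) 3 →
      (∀ z t y : X k, z.1 = app (inf (inf v.1)) (pc 3) →
        t.1 = app (inf (inf v.1)) (lp 3) → y.1 = (.nil △ (.nil △ .nil)) △ inf (inf v.1) →
        Typd P P {cyc z, cyc t, cyc y}) ∨
      ((∀ z t : X k, z.1 = app (inf (inf v.1)) (pc 3) → t.1 = app (inf (inf v.1)) (lp 3) →
        Typd P P {cyc z, cyc t}) ∧ NodeW k V (Typd P P) 1 1)) :
    ∃ z : X k, z.1 = app (inf (inf v.1)) (pc 3) ∧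
      ClsReg P ({cl (cyc z)} ∪ {κ | κ.1 = (⟨j2, V⟩ : RD)}) := by
  by_cases ho : oddF (j2 + pkc V) 3
  · rcases dty3 ho with h | ⟨h, hw⟩
    · obtain ⟨z, hz, h2⟩ := part_dn3 v hv h1 hk env (fun h => absurd ho h) (fun _ => h)
      exact ⟨z, hz, over_three hk h2⟩
    · obtain ⟨z, hz, h2⟩ := part_pair v hv hk env ho h
      have h3 := part_win (P := P) (V := V) 1 1 le_rfl le_rfl (by omega) env hw
      have hz1 : 1 ∉ contc (cyc z) := by
        rw [contc_cyc, hz, cont_app, cont_pc]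
        intro h4
        rcases Multiset.mem_add.1 h4 with h5 | h5
        · have := inf2_min v.1 _ h5
          omega
        · have := Multiset.mem_singleton.1 h5
          omega
      refine ⟨z, hz, over_three hk ?_⟩
      refine (h2.union h3 ?_).congr ?_
      · rintro κ (hκ | hκ) hκ'
        · rw [Set.mem_singleton_iff] at hκ
          rw [hκ] at hκ'
          exact vcl_ne_bare (m := 1) (by norm_num) (by omega) hκ' hz1 rfl
        · exact vcl_no (by norm_num) hκ hκ'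
      · intro p
        constructor
        · rintro ((h4 | h4) | h4)
          · exact Or.inl h4
          · exact Or.inr (Or.inl h4)
          · exact Or.inr (Or.inr h4)
        · rintro (h4 | h4 | h4)
          · exact Or.inl (Or.inl h4)
          · exact Or.inl (Or.inr h4)
          · exact Or.inr h4
  · obtain ⟨z, hz, h2⟩ := part_dn3 v hv h1 hk env dty (fun h => absurd h ho)
    exact ⟨z, hz, over_three hk h2⟩

end Pool.OddHC.PV

namespace Pool.OddHC

open Finset BinaryTree Multiset Pool.OddHop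

variable {j2 k : ℕ} {τ : Type} {P : τ → Set (Cyc k) → DG k → Prop}

/-- a bare T-cycle with its own group (window) -/
theorem ClsReg.one38 {z : Cyc k} (h1 : 1 ∉ contc z) (h2 : 2 ∉ contc z) (hw : Typd P P {z}) :
    ClsReg P ({cl z} : Set (RD × Multiset ℕ)) := by
  refine ⟨{{z}}, ?_, ?_, ?_⟩
  · rintro F hF
    rw [Set.mem_singleton_iff] at hF
    subst hF
    refine ⟨⟨z, rfl⟩, hw, ?_⟩
    rintro c rfl
    rfl
  · rintro F hF F' hF' c _ _
    rw [Set.mem_singleton_iff] at hF hF'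
    rw [hF, hF']
  · rintro p0 hp0
    have e : p0 = z := cl_single h1 h2 hp0
    subst e
    refine ⟨∅, ∅, cls_inX h1 h2 ?_⟩
    rw [inG_single]
    rfl

/-- **BARE T-CYCLES AND DOUBLY REDUCED T-CYCLES PUT TOGETHER**; `D z d`: `z` is in a group with T-cycles over `d` -/
theorem reg_dn (Z : Set (Cyc k)) (S : Set RD) (D : Cyc k → RD → Prop)
    (hz : ∀ z ∈ Z, 1 ∉ contc z ∧ 2 ∉ contc z) (hS : ∀ z ∈ Z, (cl z).1 ∉ S)
    (hD : ∀ z d, D z d → z ∈ Z ∧ d ∈ S) (hD1 : ∀ z z' d, D z d → D z' d → z = z')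
    (hD2 : ∀ z d d', D z d → D z d' → d = d')
    (hg : ∀ z d, D z d → ClsReg P ({cl z} ∪ {κ | κ.1 = d} : Set (RD × Multiset ℕ)))
    (hw : ∀ z ∈ Z, (∀ d, ¬ D z d) → ClsReg P ({cl z} : Set (RD × Multiset ℕ)))
    (hr : ∀ d ∈ S, (∀ z, ¬ D z d) → RegOK P ({d} : Set RD)) :
    ClsReg P ({κ | ∃ z ∈ Z, cl z = κ} ∪ {κ | κ.1 ∈ S} : Set (RD × Multiset ℕ)) := by
  have key := ClsReg.iUnion (P := P) (ι := {z : Cyc k // z ∈ Z ∧ ∀ d, ¬ D z d} ⊕ {d : RD // d ∈ S})
    (K := fun i => Sum.elim (fun z => {cl z.1}) (fun d => {κ | κ.1 = d.1} ∪ {κ | ∃ z, D z d.1 ∧ cl z = κ}) i)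
    ?_ ?_
  · refine key.congr fun p => ?_
    constructor
    · rintro ⟨⟨z, hz1, hz2⟩ | ⟨d, hd⟩, h⟩
      · have h1 : cl p = cl z := h
        exact Or.inl ⟨z, hz1, h1.symm⟩
      · rcases h with h | ⟨z, h1, h2⟩
        · have h1 : (cl p).1 = d := h
          refine Or.inr ?_
          change (cl p).1 ∈ S
          rw [h1]
          exact hd
        · exact Or.inl ⟨z, (hD z d h1).1, h2⟩
    · rintro (⟨z, h1, h2⟩ | h)
      · by_cases hd : ∃ d, D z d
        · obtain ⟨d, hd⟩ := hd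
          exact ⟨Sum.inr ⟨d, (hD z d hd).2⟩, Or.inr ⟨z, hd, h2⟩⟩
        · exact ⟨Sum.inl ⟨z, h1, fun d hd' => hd ⟨d, hd'⟩⟩, h2.symm⟩
      · exact ⟨Sum.inr ⟨(cl p).1, h⟩, Or.inl rfl⟩
  · rintro (⟨z, hz1, hz2⟩ | ⟨d, hd⟩) (⟨z', hz1', hz2'⟩ | ⟨d', hd'⟩) κ h h'
    · have h1 : κ = cl z := h
      have h2 : κ = cl z' := h'
      obtain rfl : z = z' := cl_single (hz z' hz1').1 (hz z' hz1').2 (h1.symm.trans h2)
      rfl
    · exfalso
      have h1 : κ = cl z := h
      rcases h' with h' | ⟨w, h2, h3⟩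
      · have h2 : κ.1 = d' := h'
        apply hS z hz1
        rw [← h1, h2]
        exact hd'
      · obtain rfl : w = z := cl_single (hz z hz1).1 (hz z hz1).2 (h3.trans h1)
        exact hz2 d' h2
    · exfalso
      have h1 : κ = cl z' := h'
      rcases h with h | ⟨w, h2, h3⟩
      · have h2 : κ.1 = d := h
        apply hS z' hz1'
        rw [← h1, h2]
        exact hd
      · obtain rfl : w = z' := cl_single (hz z' hz1').1 (hz z' hz1').2 (h3.trans h1)
        exact hz2' d h2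
    · have e : d = d' := by
        rcases h with h | ⟨w, h2, h3⟩
        · have e1 : κ.1 = d := h
          rcases h' with h' | ⟨w', h2', h3'⟩
          · have e2 : κ.1 = d' := h'
            rw [← e1, e2]
          · exfalso
            apply hS w' (hD w' d' h2').1
            rw [h3', e1]
            exact hd
        · rcases h' with h' | ⟨w', h2', h3'⟩
          · exfalso
            have e2 : κ.1 = d' := h'
            apply hS w (hD w d h2).1
            rw [h3, e2]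
            exact hd'
          · have h4 := hz w' (hD w' d' h2').1
            obtain rfl : w = w' := cl_single h4.1 h4.2 (h3.trans h3'.symm)
            exact hD2 w d d' h2 h2'
      subst e
      rfl
  · rintro (⟨z, hz1, hz2⟩ | ⟨d, hd⟩)
    · exact hw z hz1 hz2
    · by_cases h : ∃ z, D z d
      · obtain ⟨z, h1⟩ := h
        refine (hg z d h1).congr fun p => ?_
        constructor
        · rintro (h2 | h2)
          · exact Or.inr ⟨z, h1, h2.symm⟩
          · exact Or.inl h2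
        · rintro (h2 | ⟨z', h2, h3⟩)
          · exact Or.inr h2
          · obtain rfl := hD1 z z' d h1 h2
            exact Or.inl h3.symm
      · refine (hr d hd fun z h1 => h ⟨z, h1⟩).congr fun p => ?_
        constructor
        · intro h1
          exact Or.inl h1
        · rintro (h2 | ⟨z', h2, h3⟩)
          · exact h2
          · exact absurd ⟨z', h2⟩ h

/-- the doubly reduced T-cycle of a bare T-cycle has `M = 0` -/
theorem bare_M0 {z : Cyc k} (h1 : 1 ∉ contc z) (h2 : 2 ∉ contc z) :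
    (cl z).1.1 + 2 * pkc (cl z).1.2 = k := by
  have h3 := ov_total (V := (cl z).1.2) (p := z) rfl
  have h4 : aa z = 0 := Multiset.count_eq_zero.2 (not_mem_Rd h2)
  have h5 : (contc z).count 1 = 0 := Multiset.count_eq_zero.2 h1
  omega

/-- **THE REGION OF THE BARE T-CYCLES `Z` AND THE DOUBLY REDUCED T-CYCLES `S`, `M = 3`**. `A`: the T-cycles `z = U[3]`,
`U = inf (inf (r z))`, which go down to `V = cyc (r z)` -/
theorem reg_dn3 (Z A : Set (Cyc k)) (S : Set RD) (r : Cyc k → BinaryTree Unit)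
    (hz : ∀ z ∈ Z, 1 ∉ contc z ∧ 2 ∉ contc z) (hS : ∀ d ∈ S, 1 ≤ pkc d.2 ∧ d.1 + 2 * pkc d.2 + 3 = k)
    (hA : ∀ z ∈ A, z ∈ Z ∧ (∃ w : X k, cyc w = z ∧ w.1 = app (inf (inf (r z))) (pc 3)) ∧
      ∀ (j2 : ℕ) (v : X j2), v.1 = r z → (⟨j2, cyc v⟩ : RD) ∈ S)
    (hinj : ∀ z ∈ A, ∀ z' ∈ A, ∀ (j2 : ℕ) (v v' : X j2), v.1 = r z → v'.1 = r z' → cyc v = cyc v' → z = z')
    (env : ∀ p0 : Cyc k, Rd (Rd p0).2 ∈ S → PV.ClsEnv (AEP P) P P (cl p0))
    (dty : ∀ z ∈ A, ∀ F g, TyC 2 (inf (inf (r z))) F g → Typd P P F)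
    (dty3 : ∀ z ∈ A, ∀ (j2 : ℕ) (v : X j2), v.1 = r z → oddF (j2 + pkc (cyc v)) 3 →
      (∀ z1 t y : X k, z1.1 = app (inf (inf v.1)) (pc 3) →
        t.1 = app (inf (inf v.1)) (lp 3) → y.1 = (.nil △ (.nil △ .nil)) △ inf (inf v.1) →
        Typd P P {cyc z1, cyc t, cyc y}) ∨
      ((∀ z1 t : X k, z1.1 = app (inf (inf v.1)) (pc 3) → t.1 = app (inf (inf v.1)) (lp 3) →
        Typd P P {cyc z1, cyc t}) ∧ NodeW k (cyc v) (Typd P P) 1 1))
    (hw : ∀ z ∈ Z, z ∉ A → ClsReg P ({cl z} : Set (RD × Multiset ℕ)))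
    (hr : ∀ d ∈ S, RegOK P ({d} : Set RD)) :
    ClsReg P ({κ | ∃ z ∈ Z, cl z = κ} ∪ {κ | κ.1 ∈ S} : Set (RD × Multiset ℕ)) := by
  have hv : ∀ z ∈ A, ∃ (j2 : ℕ) (v : X j2), v.1 = r z := fun z _ =>
    ⟨_, ⟨r z, mem_treesOfNumNodesEq.2 rfl⟩, rfl⟩
  refine reg_dn Z S (fun z d => z ∈ A ∧ ∃ v : X d.1, v.1 = r z ∧ cyc v = d.2) hz ?_ ?_ ?_ ?_ ?_ ?_ ?_
  · intro z h h1
    have h2 := bare_M0 (hz z h).1 (hz z h).2
    have h3 := (hS _ h1).2
    omega
  · rintro z ⟨j2, V⟩ ⟨h1, v, h2, h3⟩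
    have h4 := (hA z h1).2.2 j2 v h2
    have h5 : cyc v = V := h3
    rw [h5] at h4
    exact ⟨(hA z h1).1, h4⟩
  · rintro z z' ⟨j2, V⟩ ⟨h1, v, h2, h3⟩ ⟨h1', v', h2', h3'⟩
    exact hinj z h1 z' h1' j2 v v' h2 h2' (h3.trans h3'.symm)
  · rintro z ⟨j2, V⟩ ⟨j2', V'⟩ ⟨h1, v, h2, h3⟩ ⟨h1', v', h2', h3'⟩
    change X j2 at v
    change X j2' at v'
    have e : j2 = j2' := by
      have e1 := X_num v
      have e2 := X_num v'
      rw [h2] at e1
      rw [h2'] at e2
      exact e1.symm.trans e2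
    subst e
    have e2 : v = v' := Subtype.ext (h2.trans h2'.symm)
    change cyc v = V at h3
    change cyc v' = V' at h3'
    rw [← h3, ← h3', e2]
  · rintro z ⟨j2, V⟩ ⟨h1, v, h2, h3⟩
    change X j2 at v
    change cyc v = V at h3
    subst h3
    have h4 := hS _ ((hA z h1).2.2 j2 v h2)
    obtain ⟨w, hw1, hw2⟩ := (hA z h1).2.1
    obtain ⟨z1, hz1, h5⟩ := PV.dn_all (P := P) (V := cyc v) v rfl h4.1 h4.2
      (fun p0 hp0 => env p0 (by rw [hp0]; exact (hA z h1).2.2 j2 v h2))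
      (fun _ F g hT => dty z h1 F g (by rw [← h2]; exact hT)) (fun ho => dty3 z h1 j2 v h2 ho)
    have e : z1 = w := Subtype.ext (by rw [hz1, hw2, h2])
    rw [e, hw1] at h5
    exact h5
  · intro z h1 h2
    refine hw z h1 fun h3 => ?_
    obtain ⟨j2, v, hv'⟩ := hv z h3
    exact h2 ⟨j2, cyc v⟩ ⟨h3, v, hv', rfl⟩
  · intro d hd _
    exact hr d hd

end Pool.OddHC
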