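import Pool.Agent.Work.MP_8f87b2_h35.Abs

/-!
MP_8f87b2_co: certificate of GadD3 (bare T-cycle z = R[3] joined with two guests, right).
-/

set_option autoImplicit false

namespace Pool.OddHC.CertD3

/-- arcs, base 32 digits (31 = no arc) -/
def A : Nat := 1152921503901450239

/-- masks of the allowed images -/
def al : List Nat := [17, 22, 12, 11, 48, 34, 1088, 1408, 768, 704, 3072, 2176]

/-- new words -/
def F_0 : Nat := 211

/-- successors on the new T-cycles -/
def Z_0 : Nat := 1152920440500387046

/-- first word of the lists -/
def x0_0 : Nat := 9

/-- a new word -/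
def z0_0 : Nat := 0

/-- number of new words -/
def cF_0 : Nat := 5

/-- the code -/
def code_0 : List Nat := [
  3, 8, 5, 10, 11, 264807765599422592, 264807765599422592, 264807765599422592, 10, 2,
  407901468718271556, 407832233845460036, 407901468718271556]

theorem runD3 : Pool.OddHC.Abs.run A F_0 Z_0 x0_0 z0_0 cF_0 al code_0 [[x0_0]] = true := by
  decide +kernel

end Pool.OddHC.CertD3
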