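import Pool.Agent.Work.MP_8f87b2_h35.Abs

/-!
MP_8f87b2_co: certificate of GadD3g (DOWN odd, T-fixed z, 4 and 13 on one T-cycle).
-/

set_option autoImplicit false

namespace Pool.OddHC.CertD3g

/-- arcs, base 32 digits (31 = no arc) -/
def A : Nat := 36028796279980031

/-- masks of the allowed images -/
def al : List Nat := [529, 22, 12, 11, 48, 34, 704, 384, 321, 1536, 1088]

/-- new words -/
def F_0 : Nat := 339

/-- successors on the new T-cycles -/
def Z_0 : Nat := 35999077968641216

/-- first word of the lists -/
def x0_0 : Nat := 2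

/-- a new word -/
def z0_0 : Nat := 0

/-- number of new words -/
def cF_0 : Nat := 5

/-- the code -/
def code_0 : List Nat := [
  3, 7, 5, 9, 11582537919892548, 9, 11584701509667908]

theorem runD3g : Pool.OddHC.Abs.run A F_0 Z_0 x0_0 z0_0 cF_0 al code_0 [[x0_0]] = true := by
  decide +kernel

end Pool.OddHC.CertD3g
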