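import Pool.Agent.Work.MP_8f87b2_h38.GadD3f
import Pool.Agent.Work.MP_8f87b2_h38.PartDn
import Pool.Agent.Work.MP_8f87b2_h13.TyR3
import Pool.Agent.Work.MP_8f87b2_h76.B0w

/-!
# MP_8f87b2_co: TYPE D3 = the bare T-cycle `z = R[3]` with the guests `t = R()()()` and `y = (()())R`

`TyD3 F g`: `F = {cyc w0, cyc w1, cyc w4}`, the words 0, 1, 2, 3, 4, 8, 10, 11, 12, 13, 14, 18 of the right window `W R () B S`, arcs
`3 > 12`, `8 > 14`. No further condition (`z` may be fixed by `T`).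
-/

set_option autoImplicit false

set_option linter.all false

set_option synthInstance.maxSize 1000

namespace Pool.OddHC

open Finset Equiv BinaryTree Pool.Agent.Work.MP_8f87b2_co HM

variable {j k : ℕ} {F F' : Set (Cyc k)} {g g' : DG k} {R B S : BinaryTree Unit}

/-- TYPE D3 -/
def TyD3 (F : Set (Cyc k)) (g : DG k) : Prop :=
  ∃ (R B S : BinaryTree Unit) (w0 : OddHC.X k), NodeM k 0 R B S ∧
    F = {cyc (H1.wX R B S 0 w0 0), cyc (H1.wX R B S 0 w0 1), cyc (H1.wX R B S 0 w0 4)} ∧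
    g = gadD3 (H1.wX R B S 0 w0)

namespace D3

theorem mem_lf38 {n : ℕ} [NeZero n] (a : ZMod n → ℕ) (x : ZMod n) : a x ∈ lf a := by
  unfold lf
  rw [List.mem_map]
  exact ⟨x.val, List.mem_range.2 (ZMod.val_lt x), by rw [ZMod.natCast_zmod_val]⟩

theorem of_lf38 {n : ℕ} {a : ZMod n → ℕ} {y : ℕ} (h : y ∈ lf a) : ∃ x, a x = y := by
  unfold lf at h
  rw [List.mem_map] at h
  obtain ⟨i, _, hi⟩ := h
  exact ⟨_, hi⟩

/-- a pile of three beads and no pile of three beads: different T-cycles -/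
theorem no_pile {u1 u2 : X j} {w1 w2 : X k} {e1 e2 : List ℕ} (l1 : e1.length = 2 * j + 1)
    (l2 : e2.length = 2 * j + 1) (hw1 : w1.1 = ins u1.1 e1) (hw2 : w2.1 = ins u2.1 e2) (h3 : 3 ∈ e1)
    (h3' : 3 ∉ e2) : ¬ TT.SameCycle w1 w2 := by
  intro hs
  obtain ⟨m, hm⟩ := sameCycle_nat hs
  obtain ⟨a1, rfl, ha1⟩ := pow_ins u1 l1 hw1
  obtain ⟨a2, rfl, ha2⟩ := pow_ins u2 l2 hw2
  have h := ha1 m
  rw [hm, hw2] at h
  have r1 := red_ins u2.1 (lf a2) (by rw [lf_length, X_num])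
  have r2 := red_ins ((TT ^ m) u1).1 (lf fun x => a1 (x + sp u1 m)) (by rw [lf_length, X_num])
  rw [h, r2, Prod.mk.injEq] at r1
  have e := lf_inj r1.2
  obtain ⟨x, hx⟩ := of_lf38 h3
  apply h3'
  have h4 := mem_lf38 a2 (x - sp u1 m)
  rw [← e] at h4
  simp only [sub_add_cancel] at h4
  rw [hx] at h4
  rw [← e]
  exact h4

end D3

open D3

theorem HM.NodeM.d3r (h : NodeM k 0 R B S) : ∃ r : BinaryTree Unit, R = inf r ∧ 1 ≤ r.numNodes := by
  obtain ⟨r, hr⟩ := bare_inf (c := 3) (by norm_num) (fun x hx => by have := h.part x hx; omega)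
  refine ⟨r, hr, ?_⟩
  by_contra h1
  have h2 : r = .nil := by
    cases r with
    | nil => rfl
    | node _ A B =>
      exfalso
      apply h1
      change 1 ≤ A.numNodes + B.numNodes + 1
      omega
  rw [h2] at hr
  exact h.ne hr

theorem ins_front38 (C : BinaryTree Unit) (hC : 1 ≤ C.numNodes) (a m : ℕ) :
    ins C (a :: (List.replicate (2 * C.numNodes - 1) 0 ++ [m])) = lv a (app (inf C) (lp m)) := by
  rw [ins_lv, ← ins_pile38, ← List.cons_append, ← List.replicate_succ,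
    show 2 * C.numNodes - 1 + 1 = 2 * C.numNodes by omega]

/-- `t` is not on the T-cycle of the word 2 -/
theorem HM.NodeM.d3_12 (h : NodeM k 0 R B S) (w0 : OddHC.X k) :
    ¬ TT.SameCycle (H1.wX R B S 0 w0 1) (H1.wX R B S 0 w0 2) := by
  obtain ⟨r, hr, hn⟩ := h.d3r
  refine no_pile (j := r.numNodes) (u1 := ⟨r, mem_treesOfNumNodesEq.2 rfl⟩) (u2 := ⟨r, mem_treesOfNumNodesEq.2 rfl⟩)
    (e1 := List.replicate (2 * r.numNodes) 0 ++ [3]) (e2 := 1 :: (List.replicate (2 * r.numNodes - 1) 0 ++ [2]))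
    (by simp) (by simp; omega) ?_ ?_ (by simp) (by simp)
  · rw [H1.wX_eq h.dat h.size w0 (by norm_num)]
    change _ = ins r _
    rw [ins_pile38, ← hr]
    rfl
  · rw [H1.wX_eq h.dat h.size w0 (by norm_num)]
    change _ = ins r _
    rw [ins_front38 r hn, ← hr]
    rfl

/-- `t` is not on the T-cycle of the word 18, `B = nil` -/
theorem HM.NodeM.d3_118 (h : NodeM k 0 R .nil S) (w0 : OddHC.X k) :
    ¬ TT.SameCycle (H1.wX R .nil S 0 w0 1) (H1.wX R .nil S 0 w0 18) := by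
  obtain ⟨r, hr, hn⟩ := h.d3r
  have hS : cont S = cont R := by
    have := h.eq
    rwa [cont_nil, zero_add] at this
  obtain ⟨s, hs⟩ := bare_inf (t := S) (c := 3) (by norm_num) (fun x hx => by
    rw [hS] at hx
    have := h.part x hx
    omega)
  have hcr : cont s = cont r := by
    have h3 : cont (inf s) = cont (inf r) := by rw [← hs, ← hr, hS]
    rw [cont_inf, cont_inf] at h3
    exact Multiset.map_injective (add_left_injective 1) h3
  have hnr : s.numNodes = r.numNodes := by rw [← cont_sum, ← cont_sum, hcr]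
  refine no_pile (j := r.numNodes) (u1 := ⟨r, mem_treesOfNumNodesEq.2 rfl⟩) (u2 := ⟨s, mem_treesOfNumNodesEq.2 hnr⟩)
    (e1 := List.replicate (2 * r.numNodes) 0 ++ [3]) (e2 := 2 :: (List.replicate (2 * s.numNodes - 1) 0 ++ [1]))
    (by simp) (by simp; omega) ?_ ?_ (by simp) (by simp)
  · rw [H1.wX_eq h.dat h.size w0 (by norm_num)]
    change _ = ins r _
    rw [ins_pile38, ← hr]
    rfl
  · rw [H1.wX_eq h.dat h.size w0 (by norm_num)]
    change _ = ins s _
    rw [ins_front38 s (by omega), ← hs]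
    rfl

/-! ### Numbers of ones -/

theorem c1_bare {t : BinaryTree Unit} (h : ∀ x ∈ cont t, 3 ≤ x) : (cont t).count 1 = 0 :=
  count_one_bare (c := 3) (by norm_num) h

theorem HM.NodeM.d3_one (h : NodeM k 0 R B S) (w0 : OddHC.X k) {i : ℕ} (hi : i ∈ ixD3) :
    (cont (H1.wX R B S 0 w0 i).1).count 1 = if i = 0 ∨ i = 10 then 0 else if i = 1 ∨ i = 2 ∨ i = 11 then 3 else
      if i = 4 then 1 else if i = 13 then (if B = .nil then 1 else 2) else
      if i = 18 then (if B = .nil then 3 else 2) else 2 := by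
  have hR : (cont R).count 1 = 0 := c1_bare (fun x hx => by have := h.part x hx; omega)
  have hSB := h.eq
  have hB : (cont B).count 1 = 0 := by
    have : (cont B).count 1 + (cont S).count 1 = (cont R).count 1 := by rw [← hSB, Multiset.count_add]
    omega
  have hS : (cont S).count 1 = 0 := by
    have : (cont B).count 1 + (cont S).count 1 = (cont R).count 1 := by rw [← hSB, Multiset.count_add]
    omega
  have uR : 4 ≤ (cont R).sup := by
    have := h.top
    rw [← OddHC.ht_eq]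
    omega
  have uS : 4 ≤ (cont S).sup := by
    rw [← OddHC.ht_eq, h.dat.htS, OddHC.ht_eq]
    exact uR
  have r2 : ∀ M : Multiset ℕ, 2 ≤ M.sup → (raise M).count 1 = M.count 1 := fun M hM => H1.raise_one hM
  have lp1 : cont (lp 1) = {1} := rfl
  have i20 : i < 20 := (by decide : ∀ i ∈ ixD3, i < 20) i hi
  rw [H1.wX_eq h.dat h.size w0 i20]
  have sup1 : ∀ (a : ℕ) (M : Multiset ℕ), ({a} + M).sup = max a M.sup := by
    intro a M
    rw [Multiset.sup_add, Multiset.sup_singleton]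
  have sup2 : ∀ (a : ℕ) (M : Multiset ℕ), (M + {a}).sup = max M.sup a := by
    intro a M
    rw [Multiset.sup_add, Multiset.sup_singleton]
  have e1 : raise (0 : Multiset ℕ) = {1} := raise_zero
  have e2 : (raise ({1} : Multiset ℕ)) = {2} := by
    decide
  have e3 : (raise ({1} + {1} : Multiset ℕ)).count 1 = 1 := by decide
  have cB : B ≠ .nil → 2 ≤ (cont B).sup := by
    intro hne
    have h0 : cont B ≠ 0 := by
      intro e
      apply hne
      have h2 := cont_card B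
      rw [e, Multiset.card_zero] at h2
      cases B with
      | nil => rfl
      | node _ A C =>
        exfalso
        have h3 := cont_sum (BinaryTree.node () A C)
        rw [e, Multiset.sum_zero] at h3
        change 0 = A.numNodes + C.numNodes + 1 at h3
        omega
    have h1 : (cont B).sup ∈ cont B := sup_mem h0
    have := h.dat.bare _ h1
    omega
  have f1 : ({1} : Multiset ℕ).count 1 = 1 := by decide
  have f2 : (raise ({2} : Multiset ℕ)).count 1 = 0 := by decide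
  have f3 : (raise (cont R)).count 1 = 0 := by rw [r2 _ (by omega), hR]
  have f3S : (raise (cont S)).count 1 = 0 := by rw [r2 _ (by omega), hS]
  have f3' : (raise (cont R + ({1} + {1}))).count 1 = 2 := by
    rw [r2 _ (by rw [Multiset.sup_add]; exact le_sup_of_le_left (by omega)), Multiset.count_add, Multiset.count_add,
      hR, f1]
  have f14 : (raise ({1} + ({1} + cont S))).count 1 = 2 := by
    rw [r2 _ (by rw [sup1, sup1]; exact le_max_of_le_right (le_max_of_le_right (by omega))), Multiset.count_add,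
      Multiset.count_add, hS, f1]
  have f13 : (raise (cont B + ({1} + {1}))).count 1 = if B = .nil then 1 else 2 := by
    by_cases hb : B = .nil
    · rw [if_pos hb, hb, cont_nil, zero_add, e3]
    · rw [if_neg hb, r2 _ (by rw [Multiset.sup_add]; exact le_sup_of_le_left (cB hb)), Multiset.count_add,
        Multiset.count_add, hB, f1]
  have f18 : (raise (cont B)).count 1 = if B = .nil then 1 else 0 := by
    by_cases hb : B = .nil
    · rw [if_pos hb, hb, cont_nil, e1, f1]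
    · rw [if_neg hb, r2 _ (cB hb), hB]
  simp only [ixD3, List.mem_cons, List.not_mem_nil, or_false] at hi
  rcases hi with rfl | rfl | rfl | rfl | rfl | rfl | rfl | rfl | rfl | rfl | rfl | rfl
  all_goals simp only [H1.W, H1.ch, cont_app, cont_node, cont_nil, Multiset.count_add, e1, e2, hR, hB, hS, add_zero,
    zero_add]
  all_goals simp only [f1, f2, e3, f3, f3S, f3', f14, f13, f18]
  all_goals norm_num
  by_cases hb : B = .nil
  · rw [if_pos hb, if_pos hb]
  · rw [if_neg hb, if_neg hb]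

/-! ### Different T-cycles -/

theorem cnt_same {x y : OddHC.X k} (h : TT.SameCycle x y) : (cont x.1).count 1 = (cont y.1).count 1 := by
  rw [cont_same h]

theorem HM.NodeM.d3_z (h : NodeM k 0 R B S) (w0 : OddHC.X k) {j : ℕ} (hj : j < 20) (h0 : j ≠ 0) (h10 : j ≠ 10) :
    ¬ TT.SameCycle (H1.wX R B S 0 w0 0) (H1.wX R B S 0 w0 j) := h.rhold w0 j hj h0 h10

theorem HM.NodeM.d3_t (h : NodeM k 0 R B S) (w0 : OddHC.X k) {j : ℕ} (hj : j ∈ odD3) :
    ¬ TT.SameCycle (H1.wX R B S 0 w0 1) (H1.wX R B S 0 w0 j) := by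
  intro hs
  have h1 := cnt_same hs
  rw [h.d3_one w0 (by decide), h.d3_one w0 ((by decide : ∀ j ∈ odD3, j ∈ ixD3) j hj)] at h1
  simp only [odD3, List.mem_cons, List.not_mem_nil, or_false] at hj
  rcases hj with rfl | rfl | rfl | rfl | rfl | rfl | rfl
  · exact h.d3_12 w0 hs
  · norm_num at h1
  · norm_num at h1
  · norm_num at h1
  · norm_num at h1
    split at h1 <;> omega
  · norm_num at h1
  · norm_num at h1
    by_cases hb : B = .nil
    · subst hb
      exact h.d3_118 w0 hs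
    · exact hb h1

theorem HM.NodeM.d3_y (h : NodeM k 0 R B S) (w0 : OddHC.X k) {j : ℕ} (hj : j ∈ D3.odB) :
    ¬ TT.SameCycle (H1.wX R B S 0 w0 4) (H1.wX R B S 0 w0 j) := by
  intro hs
  have h1 := cnt_same hs
  rw [h.d3_one w0 (by decide), h.d3_one w0 ((by decide : ∀ j ∈ D3.odB, j ∈ ixD3) j hj)] at h1
  simp only [D3.odB, List.mem_cons, List.not_mem_nil, or_false] at hj
  rcases hj with rfl | rfl | rfl | rfl | rfl | rfl
  all_goals norm_num at h1
  split at h1 <;> omega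

theorem HM.NodeM.d3_ty (h : NodeM k 0 R B S) (w0 : OddHC.X k) :
    ¬ TT.SameCycle (H1.wX R B S 0 w0 1) (H1.wX R B S 0 w0 4) := by
  intro hs
  have h1 := cnt_same hs
  rw [h.d3_one w0 (by decide), h.d3_one w0 (by decide)] at h1
  norm_num at h1

/-! ### Fields -/

theorem mem_gadD3 {w : ℕ → OddHC.X k} {x : OddHC.X k} : x ∈ (gadD3 w).B ↔ ∃ i ∈ ixD3, w i = x := by
  unfold gadD3
  rw [mem_gadOf_B]

theorem gadD3_arcs {w : ℕ → OddHC.X k} {p : OddHC.X k × OddHC.X k} : p ∈ (gadD3 w).arcs ↔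
    p = (w 3, w 12) ∨ p = (w 8, w 14) := by
  unfold gadD3
  rw [mem_gadOf_arcs]
  simp only [arD3, List.mem_cons, List.not_mem_nil, or_false]
  constructor
  · rintro ⟨r, rfl | rfl, e⟩
    · exact Or.inl e
    · exact Or.inr e
  · rintro (e | e)
    · exact ⟨_, Or.inl rfl, e⟩
    · exact ⟨_, Or.inr rfl, e⟩

theorem gadD3_F {w : ℕ → OddHC.X k} {x : OddHC.X k} : x ∈ (gadD3 w).F ↔
    TT.SameCycle (w 0) x ∨ TT.SameCycle (w 1) x ∨ TT.SameCycle (w 4) x := by
  unfold gadD3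
  rw [mem_gadOf_F]
  simp only [sgD3, prD3, List.map_cons, List.map_nil, List.cons_append, List.nil_append, List.mem_cons,
    List.not_mem_nil, or_false]
  constructor
  · rintro ⟨c, rfl | rfl | rfl, e⟩
    · exact Or.inr (Or.inr e)
    · exact Or.inl e
    · exact Or.inr (Or.inl e)
  · rintro (e | e | e)
    · exact ⟨_, Or.inr (Or.inl rfl), e⟩
    · exact ⟨_, Or.inr (Or.inr rfl), e⟩
    · exact ⟨_, Or.inl rfl, e⟩

theorem TyD3.hF (h : TyD3 F g) : ∀ w, w ∈ g.F ↔ cyc w ∈ F := by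
  obtain ⟨R, B, S, w0, h1, rfl, rfl⟩ := h
  intro w
  rw [gadD3_F]
  change (TT.SameCycle _ _ ∨ TT.SameCycle _ _ ∨ TT.SameCycle _ _) ↔ (cyc w = _ ∨ cyc w = _ ∨ cyc w = _)
  rw [← cyc_eq, ← cyc_eq, ← cyc_eq]
  constructor
  · rintro (e | e | e)
    · exact Or.inl e.symm
    · exact Or.inr (Or.inl e.symm)
    · exact Or.inr (Or.inr e.symm)
  · rintro (e | e | e)
    · exact Or.inl e.symm
    · exact Or.inr (Or.inl e.symm)
    · exact Or.inr (Or.inr e.symm)

theorem TyD3.new (h : TyD3 F g) : ∀ c ∈ F, ∃ u ∈ g.B, cyc u = c := by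
  obtain ⟨R, B, S, w0, h1, rfl, rfl⟩ := h
  rintro c (rfl | rfl | rfl)
  · exact ⟨_, mem_gadD3.2 ⟨0, by decide, rfl⟩, rfl⟩
  · exact ⟨_, mem_gadD3.2 ⟨1, by decide, rfl⟩, rfl⟩
  · exact ⟨_, mem_gadD3.2 ⟨4, by decide, rfl⟩, rfl⟩

theorem TyD3.old (h : TyD3 F g) : ∃ u ∈ g.B, cyc u ∉ F := by
  obtain ⟨R, B, S, w0, h1, rfl, rfl⟩ := h
  refine ⟨_, mem_gadD3.2 ⟨3, by decide, rfl⟩, ?_⟩
  rintro (e | e | e)
  · exact h1.d3_z w0 (by norm_num) (by norm_num) (by norm_num) (cyc_eq.1 e).symm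
  · exact h1.d3_t w0 (j := 3) (by decide) (cyc_eq.1 e).symm
  · exact h1.d3_y w0 (j := 3) (by decide) (cyc_eq.1 e).symm

theorem HM.NodeM.d3_abs (h : NodeM k 0 R B S) (w0 : OddHC.X k) : (gadD3 (H1.wX R B S 0 w0)).Abs := by
  have es := h.size
  have en := h.dat.num
  have hR : (H1.ch 1).numNodes + R.numNodes + 2 = k := by rw [H1.ch_num]; omega
  have hB : (H1.ch 1).numNodes + S.numNodes + B.numNodes + 2 = k := by rw [H1.ch_num]; omega
  refine gadD3_all (R := R) (Q := H1.ch 1) (B := B) (S := S) hR hB ?_ ?_ (h.rsame10 w0) (h.rsame11 w0)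
    (h.d3_z w0 (by norm_num) (by norm_num) (by norm_num)) (h.d3_z w0 (by norm_num) (by norm_num) (by norm_num))
    (h.d3_ty w0) ?_ (fun j hj => h.d3_t w0 hj) (fun j hj => h.d3_y w0 hj)
  · intro i hi
    have i20 : i < 20 := (by decide : ∀ i ∈ ixD3, i < 20) i hi
    rw [H1.wX_eq h.dat h.size w0 i20, H1.W_w20 _ _ _ _ i i20]
  · intro i hi j hj e
    have i20 : i < 20 := (by decide : ∀ i ∈ ixD3, i < 20) i hi
    have j20 : j < 20 := (by decide : ∀ i ∈ ixD3, i < 20) j hj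
    obtain ⟨_, g⟩ := h.disj h w0 i20 j20 (congrArg Tsq.mirX e)
    rcases g with ⟨g, _⟩ | ⟨rfl, rfl⟩ | ⟨rfl, rfl⟩
    · exact Or.inl g
    · exact Or.inr (Or.inl ⟨rfl, rfl⟩)
    · exact Or.inr (Or.inr ⟨rfl, rfl⟩)
  · intro j hj
    have := (by decide : ∀ j ∈ odD3, j < 20 ∧ j ≠ 0 ∧ j ≠ 10) j hj
    exact h.d3_z w0 this.1 this.2.1 this.2.2

theorem TyD3.abs (h : TyD3 F g) : g.Abs := by
  obtain ⟨R, B, S, w0, h1, rfl, rfl⟩ := h
  exact h1.d3_abs w0

theorem TyD3.path (h : TyD3 F g) : ∀ a ∈ g.arcs, ∃ n : ℕ, (TT ^ (n + 1)) a.1 = a.2 ∧ a.1 ∈ g.B ∧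
    ∀ i < n, (TT ^ (i + 1)) a.1 ∈ innA a := by
  obtain ⟨R, B, S, w0, h1, rfl, rfl⟩ := h
  intro p hp
  have key : ∀ i j, (i, j) ∈ [(0, 10), (1, 11), (3, 12), (6, 15), (8, 14), (9, 17)] → i ∈ ixD3 →
      p = (H1.wX R B S 0 w0 i, H1.wX R B S 0 w0 j) →
      ∃ n : ℕ, (TT ^ (n + 1)) p.1 = p.2 ∧ p.1 ∈ (gadD3 (H1.wX R B S 0 w0)).B ∧
        ∀ i < n, (TT ^ (i + 1)) p.1 ∈ innA p := by
    rintro i j hij hj rfl
    refine ⟨1, ?_, mem_gadD3.2 ⟨i, hj, rfl⟩, ?_⟩
    · rw [pow_succ, pow_one, Perm.mul_apply]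
      exact h1.rlink w0 hij
    · intro n hn
      obtain rfl : n = 0 := by omega
      rw [pow_one]
      rfl
  rcases gadD3_arcs.1 hp with e | e
  · exact key 3 12 (by simp) (by decide) e
  · exact key 8 14 (by simp) (by decide) e

/-- every word is a word of a right window, `c = 3` -/
theorem TyD3.words (h : TyD3 F g) : ∀ w ∈ g.B, ∃ (R B S : BinaryTree Unit) (w0 : OddHC.X k) (i : ℕ),
    NodeM k 0 R B S ∧ i ∈ ixD3 ∧ w = H1.wX R B S 0 w0 i ∧
      F = {cyc (H1.wX R B S 0 w0 0), cyc (H1.wX R B S 0 w0 1), cyc (H1.wX R B S 0 w0 4)} := by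
  obtain ⟨R, B, S, w0, h1, rfl, rfl⟩ := h
  intro w hw
  obtain ⟨i, hi, rfl⟩ := mem_gadD3.1 hw
  exact ⟨R, B, S, w0, i, h1, hi, rfl, rfl⟩

/-- the inner words -/
theorem TyD3.inn0 (h : TyD3 F g) : ∀ p ∈ g.arcs, ∀ w ∈ innA p, ∃ (R B S : BinaryTree Unit)
    (w0 : OddHC.X k) (i : ℕ), NodeM k 0 R B S ∧ i ∈ [3, 8] ∧ w = TT (H1.wX R B S 0 w0 i) ∧
      F = {cyc (H1.wX R B S 0 w0 0), cyc (H1.wX R B S 0 w0 1), cyc (H1.wX R B S 0 w0 4)} := by
  obtain ⟨R, B, S, w0, h1, rfl, rfl⟩ := h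
  intro p hp w hw
  have hw' : w = TT p.1 := hw
  rcases gadD3_arcs.1 hp with rfl | rfl
  · exact ⟨R, B, S, w0, 3, h1, by simp, hw', rfl⟩
  · exact ⟨R, B, S, w0, 8, h1, by simp, hw', rfl⟩

/-- **existence** -/
theorem HM.NodeM.exD3 (h : NodeM k 0 R B S) (w0 : OddHC.X k) :
    TyD3 {cyc (H1.wX R B S 0 w0 0), cyc (H1.wX R B S 0 w0 1), cyc (H1.wX R B S 0 w0 4)}
      (gadD3 (H1.wX R B S 0 w0)) := ⟨R, B, S, w0, h, rfl, rfl⟩

end Pool.OddHC
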