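import Pool.Agent.Work.MP_8f87b2_h38.PartDnV
import Pool.Agent.Work.MP_8f87b2_h38.TyD3
import Pool.Agent.Work.MP_8f87b2_h58.Full3
import Pool.Agent.Work.MP_8f87b2_h29.DnRows

/-!
# MP_8f87b2_co: the cross links of the bare T-cycles with smallest part 3 (full, or both parts 3 in one hole)

`DnW z r`: `z` has a word `R[3]`, `R = inf (inf r)`, the last gap of `R` is strictly minimal (full) or the only one with a part 3
(same hole). `Dn3 A z d`: the relation for `reg_dn` (`M = 3`), `inj1`, `inj2`, `size`, `bare`, `PV.Dn3_reg`.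
-/

set_option autoImplicit false
set_option linter.all false

namespace Pool.OddHC

open Finset Equiv BinaryTree Multiset Pool.Agent.Work.MP_8f87b2_co HM

variable {j j2 k : ℕ}

/-- the last gap is strictly minimal, or it is the only occupied one (once) -/
def Sel38 {n : ℕ} (f : ZMod (2 * n + 1) → ℕ) : Prop :=
  (∀ x, x ≠ -1 → f (-1) < f x) ∨ f = fun x => if x = -1 then 1 else 0

/-- `z` has a word `R[3]` with `R = inf (inf r)` -/
def DnW (z : Cyc k) (r : BinaryTree Unit) : Prop :=
  ∃ (n : ℕ) (v : X n) (f : ZMod (2 * n + 1) → ℕ) (w : X k), 1 ≤ n ∧ Sel38 f ∧ r = ins v.1 (lf f) ∧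
    cyc w = z ∧ w.1 = app (inf (inf r)) (pc 3)

open Classical in
/-- the chosen word -/
noncomputable def rr38 (z : Cyc k) : BinaryTree Unit := if h : ∃ r, DnW z r then h.choose else .nil

theorem rr38_spec {z : Cyc k} (h : ∃ r, DnW z r) : DnW z (rr38 z) := by
  unfold rr38
  rw [dif_pos h]
  exact h.choose_spec

/-- **the relation**; `A`: the T-cycles which go down -/
def Dn3 (A : Set (Cyc k)) (z : Cyc k) (d : RD) : Prop :=
  z ∈ A ∧ DnW z (rr38 z) ∧ ∃ v : X d.1, v.1 = rr38 z ∧ cyc v = d.2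

theorem Sel38.shift {n : ℕ} (hn : 1 ≤ n) {f : ZMod (2 * n + 1) → ℕ} {s : ZMod (2 * n + 1)} (h : Sel38 f)
    (h' : Sel38 fun x => f (x + s)) : s = 0 := by
  by_contra hs
  have e1 : (-1 : ZMod (2 * n + 1)) - s ≠ -1 := by
    intro e
    apply hs
    have : s = -1 - (-1 - s) := by ring
    rw [this, e]
    ring
  have e2 : (-1 : ZMod (2 * n + 1)) + s ≠ -1 := by
    intro e
    apply hs
    have : s = (-1 + s) + 1 := by ring
    rw [this, e]
    ring
  -- three different gaps
  haveI : Fact (1 < 2 * n + 1) := ⟨by omega⟩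
  rcases h with h | h <;> rcases h' with h' | h'
  · have h5 := h' _ e1
    simp only [sub_add_cancel] at h5
    have h6 := h _ e2
    omega
  · -- `f` is minimal at `-1`, and all values but one are `0`
    have g : ∀ x, f x = if x - s = -1 then 1 else 0 := by
      intro x
      have := congrFun h' (x - s)
      simp only [sub_add_cancel] at this
      exact this
    obtain ⟨x, hx1, hx2⟩ : ∃ x : ZMod (2 * n + 1), x ≠ -1 ∧ x - s ≠ -1 := by
      by_contra hall
      push Not at hall
      have c : ∀ x : ZMod (2 * n + 1), x = -1 ∨ x = -1 + s := by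
        intro x
        by_cases hx : x = -1
        · exact Or.inl hx
        · right
          have := hall x hx
          rw [← this]
          ring
      have card : Fintype.card (ZMod (2 * n + 1)) ≤ 2 := by
        calc Fintype.card (ZMod (2 * n + 1)) = (Finset.univ : Finset (ZMod (2 * n + 1))).card := rfl
          _ ≤ ({-1, -1 + s} : Finset (ZMod (2 * n + 1))).card := by
            apply Finset.card_le_card
            intro x _
            rcases c x with h | h <;> simp [h]
          _ ≤ 2 := Finset.card_le_two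
      rw [ZMod.card] at card
      omega
    have h5 := h x hx1
    rw [g x, if_neg hx2] at h5
    omega
  · have h5 : ∀ x : ZMod (2 * n + 1), x ≠ -1 → f (-1 + s) < f (x + s) := h'
    obtain ⟨x, hx1, hx2⟩ : ∃ x : ZMod (2 * n + 1), x ≠ -1 ∧ x + s ≠ -1 := by
      by_contra hall
      push Not at hall
      have c : ∀ x : ZMod (2 * n + 1), x = -1 ∨ x = -1 - s := by
        intro x
        by_cases hx : x = -1
        · exact Or.inl hx
        · right
          have := hall x hx
          rw [← this]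
          ring
      have card : Fintype.card (ZMod (2 * n + 1)) ≤ 2 := by
        calc Fintype.card (ZMod (2 * n + 1)) = (Finset.univ : Finset (ZMod (2 * n + 1))).card := rfl
          _ ≤ ({-1, -1 - s} : Finset (ZMod (2 * n + 1))).card := by
            apply Finset.card_le_card
            intro x _
            rcases c x with h | h <;> simp [h]
          _ ≤ 2 := Finset.card_le_two
      rw [ZMod.card] at card
      omega
    have h6 := h5 x hx1
    rw [h] at h6
    simp only [if_neg hx2] at h6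
    omega
  · have h5 := congrFun h' (-1)
    simp only [if_true] at h5
    rw [h] at h5
    simp only [if_neg e2] at h5
    omega

theorem DnW.num {z : Cyc k} {r : BinaryTree Unit} (h : DnW z r) : r.numNodes + 2 * pkn r + 3 = k := by
  obtain ⟨n, v, f, w, hn, hf, rfl, hw, hw1⟩ := h
  have h1 := X_num w
  rw [hw1, num_app, pc_num, inf_num38, inf_num38, inf_pkn38] at h1
  omega

theorem DnW.bare {z : Cyc k} {r : BinaryTree Unit} (h : DnW z r) : 1 ∉ contc z ∧ 2 ∉ contc z := by
  obtain ⟨n, v, f, w, hn, hf, rfl, hw, hw1⟩ := h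
  have hc : contc z = cont (inf (inf (ins v.1 (lf f)))) + {3} := by
    rw [← hw, contc_cyc, hw1, cont_app, cont_pc]
  constructor <;>
  · rw [hc]
    intro h2
    rcases Multiset.mem_add.1 h2 with h3 | h3
    · have := inf2_min _ _ h3
      omega
    · have := Multiset.mem_singleton.1 h3
      omega

/-- **`R` determines `z`** -/
theorem DnW.inj {z z' : Cyc k} {r r' : BinaryTree Unit} (h : DnW z r) (h' : DnW z' r') {v2 v2' : X j}
    (hv : v2.1 = r) (hv' : v2'.1 = r') (hc : cyc v2 = cyc v2') : z = z' := by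
  obtain ⟨n, v, f, w, hn, hf, rfl, hw, hw1⟩ := h
  obtain ⟨n', v', f', w', hn', hf', rfl, hw', hw1'⟩ := h'
  obtain ⟨m, hm⟩ := sameCycle_nat (cyc_eq.1 hc)
  obtain ⟨a, ha, hpa⟩ := pow_ins v (e := lf f) (lf_length f) (w := v2) hv
  have ha' : f = a := lf_inj ha
  subst ha'
  have h1 := hpa m
  rw [hm, hv'] at h1
  have r1 := red_ins v'.1 (lf f') (by rw [lf_length, X_num])
  have r2 := red_ins ((TT ^ m) v).1 (lf fun x => f (x + sp v m)) (by rw [lf_length, X_num])
  rw [h1, r2, Prod.mk.injEq] at r1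
  have e0 : n = n' := by
    have := congrArg BinaryTree.numNodes r1.1
    rwa [X_num, X_num] at this
  subst e0
  have e1 : (TT ^ m) v = v' := Subtype.ext r1.1
  have e2 : (fun x => f (x + sp v m)) = f' := lf_inj r1.2
  have hs : sp v m = 0 := Sel38.shift hn hf (by rw [e2]; exact hf')
  -- add a part 3
  have add : ∀ {q : ℕ} (u : X q) (p : ZMod (2 * q + 1) → ℕ), app (inf (inf (ins u.1 (lf p)))) (pc 3) =
      inf (inf (ins u.1 (lf fun x => p x + if x = -1 then 1 else 0))) := by
    intro q u p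
    rw [end_coord u (fun x => p x + if x = -1 then 1 else 0) (by simp)]
    congr 5
    funext x
    omega
  rw [add] at hw1 hw1'
  have h3 := pow_coord hw1 m
  have h4 : (TT ^ m) w = w' := by
    apply Subtype.ext
    rw [h3, hw1', e1, ← e2, hs]
    simp only [add_zero]
  rw [← hw, ← hw', ← h4]
  exact cyc_eq.2 ⟨m, by rw [zpow_natCast]⟩

variable {A : Set (Cyc k)} {z z' : Cyc k} {d d' : RD}

theorem Dn3.bare (h : Dn3 A z d) : 1 ∉ contc z ∧ 2 ∉ contc z := h.2.1.bare

theorem Dn3.size (h : Dn3 A z d) : d.1 + 2 * pkc d.2 + 3 = k := by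
  obtain ⟨_, h1, v, hv, hc⟩ := h
  have h2 := h1.num
  rw [← hv, X_num] at h2
  rw [← hc, pkc_cyc]
  exact h2

theorem Dn3.inj1 (h : Dn3 A z d) (h' : Dn3 A z' d) : z = z' := by
  obtain ⟨_, h1, v, hv, hc⟩ := h
  obtain ⟨_, h1', v', hv', hc'⟩ := h'
  exact h1.inj h1' hv hv' (hc.trans hc'.symm)

theorem Dn3.inj2 (h : Dn3 A z d) (h' : Dn3 A z d') : d = d' := by
  obtain ⟨_, h1, v, hv, hc⟩ := h
  obtain ⟨_, h1', v', hv', hc'⟩ := h'
  obtain ⟨j, V⟩ := d
  obtain ⟨j', V'⟩ := d'
  change X j at v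
  change X j' at v'
  have e : j = j' := by
    have e1 := X_num v
    have e2 := X_num v'
    rw [hv] at e1
    rw [hv'] at e2
    exact e1.symm.trans e2
  subst e
  have e2 : v = v' := Subtype.ext (hv.trans hv'.symm)
  change cyc v = V at hc
  change cyc v' = V' at hc'
  rw [← hc, ← hc', e2]

/-- every `z` of `A` with a word is in the relation -/
theorem Dn3.ex (hz : z ∈ A) (h : ∃ r, DnW z r) : ∃ d, Dn3 A z d :=
  ⟨⟨_, cyc (⟨rr38 z, mem_treesOfNumNodesEq.2 rfl⟩ : X (rr38 z).numNodes)⟩, hz, rr38_spec h, _, rfl, rfl⟩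

theorem sum_ge38 {n : ℕ} (hn : 1 ≤ n) {f : ZMod (2 * n + 1) → ℕ} (h : Sel38 f) : 1 ≤ ∑ x, f x := by
  haveI : Fact (1 < 2 * n + 1) := ⟨by omega⟩
  rcases h with h | h
  · have h0 : (0 : ZMod (2 * n + 1)) ≠ -1 := by
      intro e
      have h1 : (1 : ZMod (2 * n + 1)) = 0 := by
        have : (1 : ZMod (2 * n + 1)) = -(-1) := by ring
        rw [this, ← e, neg_zero]
      exact one_ne_zero h1
    have h1 := h 0 h0
    have h2 := Finset.single_le_sum (f := f) (fun x _ => Nat.zero_le _) (Finset.mem_univ (0 : ZMod (2 * n + 1)))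
    omega
  · have h2 := Finset.single_le_sum (f := f) (fun x _ => Nat.zero_le _) (Finset.mem_univ (-1 : ZMod (2 * n + 1)))
    have h3 : f (-1) = 1 := by rw [h]; simp
    omega

/-- the node of the window -/
theorem DnW.node {z : Cyc k} {r : BinaryTree Unit} (h : DnW z r) :
    ∃ B S, NodeM k 0 (inf (inf r)) B S := by
  have hnum := h.num
  obtain ⟨n, v, f, w, hn, hf, rfl, hw, hw1⟩ := h
  refine ⟨(Tsq.sq (inf (inf (ins v.1 (lf f))))).2, (Tsq.sq (inf (inf (ins v.1 (lf f))))).1, rfl, ?_, ?_, ?_, ?_⟩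
  · intro x hx
    exact inf2_min _ _ hx
  · have h1 := count3_coord v f
    have h2 := sum_ge38 hn hf
    rw [← h1] at h2
    exact Multiset.count_pos.1 h2
  · -- a part at least 4
    have hv : cont v.1 ≠ 0 := by
      intro e
      have h3 := cont_sum v.1
      rw [e, Multiset.sum_zero, X_num] at h3
      omega
    obtain ⟨x, hx⟩ := Multiset.exists_mem_of_ne_zero hv
    have hx1 : 1 ≤ x := cont_pos _ _ hx
    have h4 : x + 1 + 2 ∈ cont (inf (inf (ins v.1 (lf f)))) := by
      rw [cont_inf2, cont_ins v.1 _ (by rw [lf_length, X_num])]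
      exact Multiset.mem_map.2 ⟨x + 1, Multiset.mem_add.2 (Or.inl (Multiset.mem_map.2 ⟨x, hx, rfl⟩)), rfl⟩
    have h5 := Multiset.le_sup h4
    rw [← OddHC.ht_eq] at h5
    omega
  · rw [inf_num38, inf_num38, inf_pkn38]
    omega

theorem inf_ne38 {t : BinaryTree Unit} (h : inf t = .nil) : t = .nil := by
  cases t with
  | nil => rfl
  | node _ A C =>
    exfalso
    have e : inf (A △ C) = .nil := h
    have h1 := inf_num38 (A △ C)
    rw [e] at h1
    have h2 : (A △ C).numNodes = A.numNodes + C.numNodes + 1 := rfl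
    have h3 : (BinaryTree.nil : BinaryTree Unit).numNodes = 0 := rfl
    omega

/-- `R` is not one component -/
theorem DnW.two {z : Cyc k} {r : BinaryTree Unit} (h : DnW z r) : ∀ A, inf (inf r) ≠ A △ .nil := by
  obtain ⟨B, S, hN⟩ := h.node
  obtain ⟨n, v, f, w, hn, hf, rfl, hw, hw1⟩ := h
  intro C e
  haveI : Fact (1 < 2 * n + 1) := ⟨by omega⟩
  rcases hf with hf | hf
  · have h0 : (0 : ZMod (2 * n + 1)) ≠ -1 := by
      intro e
      have h1 : (1 : ZMod (2 * n + 1)) = 0 := by
        have : (1 : ZMod (2 * n + 1)) = -(-1) := by ring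
        rw [this, ← e, neg_zero]
      exact one_ne_zero h1
    obtain ⟨Y, hY⟩ := coord_st3 v f (by have := hf 0 h0; omega)
    rw [e] at hY
    have h1 : (BinaryTree.nil : BinaryTree Unit) = Y := (BinaryTree.node.inj hY).2.2
    have h2 : C = pc 2 := (BinaryTree.node.inj hY).2.1
    have h3 := hN.top
    rw [e, h2] at h3
    have h4 : ht (pc 2 △ .nil) = 3 := rfl
    omega
  · have h1 : f (-1) = 1 := by rw [hf]; simp
    rw [end_coord v f (by omega)] at e
    obtain ⟨Y, hY⟩ : ∃ Y, Y = inf (inf (ins v.1 (lf fun x => f x - if x = -1 then 1 else 0))) := ⟨_, rfl⟩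
    rw [← hY] at e
    cases Y with
    | nil =>
      have h2 := inf_ne38 (inf_ne38 hY.symm)
      have h3 := congrArg cont h2
      rw [cont_ins v.1 _ (by rw [lf_length, X_num]), cont_nil] at h3
      have h4 : cont v.1 = 0 := by
        have h5 := congrArg Multiset.card h3
        rw [Multiset.card_add, Multiset.card_map, Multiset.card_zero] at h5
        exact Multiset.card_eq_zero.1 (by omega)
      have h5 := cont_sum v.1
      rw [h4, Multiset.sum_zero, X_num] at h5
      omega
    | node _ A' Y' =>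
      have e' : A' △ app Y' (pc 3) = C △ .nil := e
      have h2 : app Y' (pc 3) = .nil := (BinaryTree.node.inj e').2.2
      have h3 := congrArg BinaryTree.numNodes h2
      rw [num_app, pc_num] at h3
      have h4 : (BinaryTree.nil : BinaryTree Unit).numNodes = 0 := rfl
      omega

theorem DnW.dnU {z : Cyc k} {r : BinaryTree Unit} (h : DnW z r) : DnU (inf (inf r)) := by
  obtain ⟨B, S, hN⟩ := h.node
  exact DnU.of_bare (fun x hx => inf2_min _ _ hx) hN.ne h.two

/-- the word `()R()()` -/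
theorem ins_front239 (C : BinaryTree Unit) (hC : 1 ≤ C.numNodes) :
    ins C (1 :: (List.replicate (2 * C.numNodes - 1) 0 ++ [2])) = .nil △ app (inf C) (lp 2) := by
  rw [ins_front38 C hC]
  rfl

end Pool.OddHC

namespace Pool.OddHC.PV

open Finset Equiv BinaryTree Multiset Pool.Agent.Work.MP_8f87b2_co HM Pool.OddHC

variable {j j2 k : ℕ} {τ : Type} {P : τ → Set (Cyc k) → DG k → Prop} {V : Cyc j2}

/-- **PART, `j` even: the group `{z, t}`**, `t = ()U()()`; the class of `z` and the class `(V; 0, 3)` -/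
theorem part_pair2 (v : X j2) (hv : cyc v = V) (h1 : 1 ≤ pkc V) (hk : j2 + 2 * pkc V + 3 = k)
    (env : ∀ p0 : Cyc k, Rd (Rd p0).2 = ⟨j2, V⟩ → ClsEnv (AEP P) P P (cl p0)) (ho : oddF (j2 + pkc V) 3)
    (dty : ∀ z t : X k, z.1 = app (inf (inf v.1)) (pc 3) → t.1 = .nil △ app (inf (inf v.1)) (lp 2) →
      Typd P P {cyc z, cyc t}) :
    ∃ z : X k, z.1 = app (inf (inf v.1)) (pc 3) ∧
      ClsReg P ({cl (cyc z)} ∪ vcl k V 0 : Set (RD × Multiset ℕ)) := by
  obtain ⟨u0, u, z, t0, y, hz, ht0, hy, hRt0, hR0, hct0, hRy, hR1, hcy, hz1, hz2⟩ := dn_three v hv hk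
  have hp : pkn v.1 = pkc V := by rw [← pkc_cyc, hv]
  have hi : (inf v.1).numNodes = j2 + pkc V := by rw [inf_num38, hp, X_num]
  have hii : (inf (inf v.1)).numNodes = j2 + 2 * pkc V := by
    rw [inf_num38, hi, inf_pkn38, hp]
    ring
  have ht' : (.nil △ app (inf (inf v.1)) (lp 2) : BinaryTree Unit).numNodes = k := by
    change 0 + (app (inf (inf v.1)) (lp 2)).numNodes + 1 = k
    rw [num_app, lp_num, hii]
    omega
  obtain ⟨t, ht⟩ : ∃ a : X k, a.1 = .nil △ app (inf (inf v.1)) (lp 2) := ⟨⟨_, mem_treesOfNumNodesEq.2 ht'⟩, rfl⟩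
  obtain ⟨u1, hu1⟩ : ∃ a : X (j2 + pkc V), a.1 = inf v.1 := ⟨⟨_, mem_treesOfNumNodesEq.2 hi⟩, rfl⟩
  have hRt : Rd (cyc t) = ⟨j2 + pkc V, cyc u1⟩ := by
    refine Rd_ins (e := 1 :: (List.replicate (2 * (inf v.1).numNodes - 1) 0 ++ [2])) ?_ ?_
    · rw [List.length_cons, List.length_append, List.length_replicate, hi]
      simp only [List.length_singleton]
      omega
    · rw [hu1, ins_front239 _ (by rw [hi]; omega), ht]
  have hRu : Rd (cyc u1) = ⟨j2, V⟩ := by
    have h5 := Rd_ins (u := v) (e := List.replicate (2 * j2 + 1) 0) (by simp) (w := u1)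
      (by rw [hu1, inf, X_num])
    rwa [hv] at h5
  have hct : cl (cyc t) ∈ vcl k V 0 := (vcl_iff hRt hRu).2 rfl
  refine ⟨z, hz, {{cyc z, cyc t}}, ?_, ?_, ?_⟩
  · rintro F hF
    rw [Set.mem_singleton_iff] at hF
    subst hF
    refine ⟨⟨_, Or.inl rfl⟩, dty z t hz ht, ?_⟩
    rintro c (rfl | rfl)
    · exact Or.inl rfl
    · exact Or.inr hct
  · rintro F hF F' hF' c _ _
    rw [Set.mem_singleton_iff] at hF hF'
    rw [hF, hF']
  · rw [inG_single]
    rintro p0 (hp0 | hp0)
    · have e : p0 = cyc z := cl_single hz1 hz2 hp0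
      subst e
      exact ⟨∅, ∅, cls_inX hz1 hz2 (Or.inl rfl)⟩
    · refine cls_t0 (m := 3) (by norm_num) hk env ho hRt hRu (fun h => absurd h (by norm_num)) hp0 ?_
      intro q hq
      constructor
      · rintro (rfl | rfl)
        · exact absurd hq (vcl_ne_bare (m := 3) (by norm_num) (by omega) hp0 hz1)
        · rfl
      · rintro rfl
        exact Or.inr rfl

/-- one bare T-cycle with all classes over `V`, group `{z, ()U()()}` -/
theorem dn_all2 (v : X j2) (hv : cyc v = V) (h1 : 1 ≤ pkc V) (hk : j2 + 2 * pkc V + 3 = k)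
    (env : ∀ p0 : Cyc k, Rd (Rd p0).2 = ⟨j2, V⟩ → ClsEnv (AEP P) P P (cl p0)) (ho : oddF (j2 + pkc V) 3)
    (dty : ∀ z t : X k, z.1 = app (inf (inf v.1)) (pc 3) → t.1 = .nil △ app (inf (inf v.1)) (lp 2) →
      Typd P P {cyc z, cyc t}) (hw : NodeW k V (Typd P P) 1 1) :
    ∃ z : X k, z.1 = app (inf (inf v.1)) (pc 3) ∧
      ClsReg P ({cl (cyc z)} ∪ {κ | κ.1 = (⟨j2, V⟩ : RD)}) := by
  obtain ⟨z, hz, h2⟩ := part_pair2 v hv h1 hk env ho dty
  have h3 := part_win (P := P) (V := V) 1 1 le_rfl le_rfl (by omega) env hw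
  have hz1 : 1 ∉ contc (cyc z) := by
    rw [contc_cyc, hz, cont_app, cont_pc]
    intro h4
    rcases Multiset.mem_add.1 h4 with h5 | h5
    · have := inf2_min v.1 _ h5
      omega
    · have := Multiset.mem_singleton.1 h5
      omega
  refine ⟨z, hz, over_three hk ?_⟩
  refine (h2.union h3 ?_).congr ?_
  · rintro κ (hκ | hκ) hκ'
    · rw [Set.mem_singleton_iff] at hκ
      rw [hκ] at hκ'
      exact vcl_ne_bare (m := 1) (by norm_num) (by omega) hκ' hz1 rfl
    · exact vcl_no (by norm_num) hκ hκ'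
  · intro p
    constructor
    · rintro ((h4 | h4) | h4)
      · exact Or.inl h4
      · exact Or.inr (Or.inl h4)
      · exact Or.inr (Or.inr h4)
    · rintro (h4 | h4 | h4)
      · exact Or.inl (Or.inl h4)
      · exact Or.inl (Or.inr h4)
      · exact Or.inr h4

/-- **THE CROSS LINK of a `z ∈ A`**: its class and all classes over `d` -/
theorem Dn3_reg {A : Set (Cyc k)} {z : Cyc k} {d : RD} (h : Dn3 A z d)
    (env : ∀ p0 : Cyc k, Rd (Rd p0).2 = d → ClsEnv (AEP P) P P (cl p0))
    (hC : ¬ oddF (d.1 + pkc d.2) 3 → ∀ F g, TyDn F g → Typd P P F)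
    (hO : oddF (d.1 + pkc d.2) 3 → (∀ F g, TyD3 F g → Typd P P F) ∨
      (NodeW k d.2 (Typd P P) 1 1 ∧ ∀ z1 t : X k, z1.1 = app (inf (inf (rr38 z))) (pc 3) →
        t.1 = .nil △ app (inf (inf (rr38 z))) (lp 2) → Typd P P {cyc z1, cyc t})) :
    ClsReg P ({cl z} ∪ {κ | κ.1 = d} : Set (RD × Multiset ℕ)) := by
  have hsize := h.size
  obtain ⟨_, h1, v, hv, hc⟩ := h
  obtain ⟨j2, V⟩ := d
  change X j2 at v
  change cyc v = V at hc
  subst hc
  obtain ⟨B, S, hN⟩ := h1.node
  have hU := h1.dnU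
  have hp1 : 1 ≤ pkc (cyc v) := by
    rw [pkc_cyc]
    by_contra h0
    have h2 : pkn v.1 = 0 := by omega
    rw [← cont_card, Multiset.card_eq_zero] at h2
    have h3 := cont_sum v.1
    rw [h2, Multiset.sum_zero] at h3
    have h4 : v.1 = .nil := by
      cases hh : v.1 with
      | nil => rfl
      | node _ A C =>
        exfalso
        rw [hh] at h3
        change 0 = A.numNodes + C.numNodes + 1 at h3
        omega
    rw [← hv, h4] at hN
    exact hN.ne rfl
  have key : ∀ z1 : X k, z1.1 = app (inf (inf v.1)) (pc 3) → cyc z1 = z := by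
    intro z1 hz1
    obtain ⟨n, v', f, w, hn, hf, hr, hw, hw1⟩ := h1
    rw [← hw]
    congr 1
    apply Subtype.ext
    rw [hz1, hw1, hv]
  by_cases ho : oddF (j2 + pkc (cyc v)) 3
  · rcases hO ho with h3 | ⟨h3, h4⟩
    · obtain ⟨z1, hz1, h5⟩ := dn_all (P := P) (V := cyc v) v rfl hp1 hsize env (fun h => absurd ho h)
        (fun _ => Or.inl (by
          intro z1 t y hz1 ht hy
          have hN' := hN
          rw [← hv] at hN'
          have h6 := hN'.exD3 z1
          have e0 : H1.wX (inf (inf v.1)) B S 0 z1 0 = z1 := by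
            apply Subtype.ext
            rw [H1.wX_eq hN'.dat hN'.size z1 (by norm_num), hz1]
            rfl
          have e1 : H1.wX (inf (inf v.1)) B S 0 z1 1 = t := by
            apply Subtype.ext
            rw [H1.wX_eq hN'.dat hN'.size z1 (by norm_num), ht]
            rfl
          have e4 : H1.wX (inf (inf v.1)) B S 0 z1 4 = y := by
            apply Subtype.ext
            rw [H1.wX_eq hN'.dat hN'.size z1 (by norm_num), hy]
            rfl
          rw [e0, e1, e4] at h6
          exact h3 _ _ h6))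
      rw [key z1 hz1] at h5
      exact h5
    · obtain ⟨z1, hz1, h5⟩ := dn_all2 (P := P) (V := cyc v) v rfl hp1 hsize env ho
        (fun z1 t hz1 ht => h4 z1 t (by rw [← hv]; exact hz1) (by rw [← hv]; exact ht)) h3
      rw [key z1 hz1] at h5
      exact h5
  · obtain ⟨z1, hz1, h5⟩ := dn_all (P := P) (V := cyc v) v rfl hp1 hsize env
      (fun h F g hT => hC h F g ⟨_, by rw [hv]; exact hU, hT⟩) (fun h => absurd h ho)
    rw [key z1 hz1] at h5
    exact h5

end Pool.OddHC.PV
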