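import Pool.Agent.Work.MP_8f87b2_h13.A0Dn
set_option autoImplicit false
set_option linter.all false

/-!
# MP_8f87b2_co: the right content links over a bare word `U` against the mirrored windows A0, B0

`BareC c U`: all parts of `U` at least `c + 1`, `c + 1` a part of `U`. Host `(U)[c]`, new words `U[c+1]` (bead free) and `[c]()U`.
`c = 2`: DOWN links, `U = Y[3]`, `U = [3]^n`, any bare `U` with a part `3`.
-/

namespace Pool.OddHC
open Finset Equiv BinaryTree Pool.Agent.Work.MP_8f87b2_co HM
variable {k : ℕ} {F F' : Set (Cyc k)} {g g' : DG k} {d c : ℕ} {R B S U V Y : BinaryTree Unit}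

/-- the inside `U` of a content link: all parts at least `c + 1`, one of them `c + 1` -/
def BareC (c : ℕ) (U : BinaryTree Unit) : Prop := (∀ x ∈ cont U, c + 1 ≤ x) ∧ c + 1 ∈ cont U

theorem BareC.ne (h : BareC c U) : U ≠ .nil := by
  rintro rfl
  exact absurd h.2 (Multiset.notMem_zero _)

/-- `U = Y[c+1]` -/
theorem bareC_of (h4 : ∀ x ∈ cont Y, c + 1 ≤ x) : BareC c (app Y (pc (c + 1))) := by
  have h1 : cont (app Y (pc (c + 1))) = cont Y + {c + 1} := by rw [cont_app, cont_pc]
  constructor
  · intro x hx
    rw [h1] at hx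
    rcases Multiset.mem_add.1 hx with h | h
    · exact h4 x h
    · rw [Multiset.mem_singleton.1 h]
  · rw [h1]
    exact Multiset.mem_add.2 (Or.inr (Multiset.mem_singleton_self _))

theorem mem_raise38 {M : Multiset ℕ} (h1 : 1 ∈ M) (h2 : 2 ≤ Multiset.card M) (h3 : ∀ x ∈ M, 1 ≤ x) : 1 ∈ raise M := by
  unfold raise
  apply Multiset.mem_cons_of_mem
  by_cases h4 : M.sup = 1
  · have h5 : M = Multiset.replicate (Multiset.card M) 1 := by
      rw [Multiset.eq_replicate]
      refine ⟨rfl, fun x hx => ?_⟩
      have := Multiset.le_sup hx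
      have := h3 x hx
      omega
    rw [h4, ← Multiset.one_le_count_iff_mem, Multiset.count_erase_self]
    have h6 := congrArg (Multiset.count 1) h5
    rw [Multiset.count_replicate_self] at h6
    omega
  · exact (Multiset.mem_erase_of_ne (fun e => h4 e.symm)).2 h1

theorem pair_last38 {A C D : BinaryTree Unit} {L : List (BinaryTree Unit)} (h : L ++ [A] = [C, D]) : L = [C] ∧ A = D := by
  have h1 : L ++ [A] = [C] ++ [D] := h
  exact snoc_inj h1

/-- a component of `U` -/
theorem BareC.comp (h : BareC c U) {A : BinaryTree Unit} {L L' : List (BinaryTree Unit)} (h1 : comps U = L ++ A :: L')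
    {x : ℕ} (hx : x ∈ raise (cont A)) : c + 1 ≤ x :=
  h.1 x (mem_comps (by rw [h1]; simp) hx)

theorem BareC.nil' (h : BareC c U) (hc : 1 ≤ c) {L L' : List (BinaryTree Unit)} (h1 : comps U = L ++ .nil :: L') : False := by
  have := h.comp h1 (x := 1) (by rw [cont_nil, raise_zero]; exact Multiset.mem_singleton_self _)
  omega

/-- a component with a bead -/
theorem BareC.bead (h : BareC c U) (hc : 1 ≤ c) {P : BinaryTree Unit} (hP : P ≠ .nil) {L L' : List (BinaryTree Unit)}
    (h1 : comps U = L ++ app P (.nil △ B) :: L') : False := by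
  have := h.comp h1 (x := 1) (by
    apply mem_raise38
    · rw [cont_app, cont_node, cont_nil, raise_zero]
      exact Multiset.mem_add.2 (Or.inr (Multiset.mem_add.2 (Or.inl (Multiset.mem_singleton_self _))))
    · rw [cont_app, cont_node, cont_nil, raise_zero, Multiset.card_add, Multiset.card_add, Multiset.card_singleton]
      have h2 : Multiset.card (cont P) ≠ 0 := by
        rw [Ne, Multiset.card_eq_zero]
        exact cont_ne hP
      omega
    · exact cont_pos _)
  omega

/-- a component `B(S)` -/
theorem raise_BS (g : A0D d R B S) {x : ℕ} (hx : x ∈ cont (app B (S △ .nil))) : d + 3 ≤ x := by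
  rw [cont_app, cont_node, cont_nil, add_zero] at hx
  rcases Multiset.mem_add.1 hx with h4 | h4
  · exact g.hvB x h4
  · unfold raise at h4
    rcases Multiset.mem_cons.1 h4 with h5 | h5
    · have h6 : ht S = (cont S).sup := ht_eq S
      have := g.top
      have := g.hS
      omega
    · exact g.hvS x (Multiset.mem_of_mem_erase h5)

/-- `U = B(S)` is not possible for a window with smallest part at least `c + 2` -/
theorem BareC.BS (h : BareC c U) (g : A0D d R B S) (hd : c + 1 < d + 3) (h1 : comps U = comps B ++ [S]) : False := by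
  have e : U = app B (S △ .nil) := by
    apply comps_inj
    rw [h1, comps_app]
    rfl
  have h3 := h.2
  rw [e] at h3
  have := raise_BS g h3
  omega

/-- `U = (B(S))` is not possible for a window with smallest part at least `c + 2` -/
theorem BareC.BS' (h : BareC c U) (g : A0D d R B S) (hd : c + 1 < d + 3) (h1 : comps U = [app B (S △ .nil)]) : False := by
  have e : U = app B (S △ .nil) △ .nil := by
    apply comps_inj
    rw [h1]
    rfl
  have h3 := h.2
  have hs : d + 4 ≤ (cont (app B (S △ .nil))).sup := by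
    rw [← ht_eq, ht_app]
    have : ht (S △ .nil) = max (ht S + 1) (ht .nil) := ht_node S .nil
    have := g.top
    have := g.hS
    omega
  rw [e, cont_node, cont_nil, add_zero] at h3
  unfold raise at h3
  rcases Multiset.mem_cons.1 h3 with h5 | h5
  · omega
  · have := raise_BS g (Multiset.mem_of_mem_erase h5)
    omega

theorem A0D.S_pc38 (h : A0D d R B S) {n : ℕ} (hn : n < d + 3) : S ≠ pc n := by
  intro e
  have h1 := h.top
  rw [← h.hS, e] at h1
  have h2 : ht (pc n) ≤ n := by
    clear h1 e hn
    induction n with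
    | zero => exact Nat.le_refl _
    | succ n ih =>
      change ht (pc n △ .nil) ≤ n + 1
      rw [ht_node]
      have : ht (BinaryTree.nil : BinaryTree Unit) = 0 := rfl
      omega
  omega

/-- the host `(U)[c]` -/
theorem awCb_0 (h : A0D d R B S) {i : ℕ} (hi : i < 20) (hc : 2 ≤ c) (hU : BareC c U)
    (e : aw R (pc (d + 1)) B S i = w1 .nil U (pc c)) : c = d + 2 ∧ B = .nil ∧ S = U := by
  obtain ⟨c, rfl⟩ : ∃ c', c = c' + 2 := ⟨c - 2, by omega⟩
  have hRn := h.R_ne
  have hSn := h.S_ne
  have hRp := h.R_pc
  have hp : ∀ n, pc (n + 1) ≠ .nil := fun n => pc_ne (by omega)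
  obtain ⟨⟨r, R1, R2, r', hr, hr', hr0, hr0'⟩, ⟨s, S1, S2, s', hs, hs', hs0, hs0'⟩, hB⟩ := h.dat
  -- the two components
  have e0 := congrArg comps e
  have e' : comps (w1 .nil U (pc (c + 2))) = [U, pc (c + 1)] := rfl
  rw [e'] at e0
  have hl := congrArg List.length e0
  have hS0 : 1 ≤ (comps S).length := by rw [hs]; simp
  have hR0 : 1 ≤ (comps R).length := by rw [hr]; simp
  interval_cases i <;>
  simp only [aw, comps_w1, comps_node, comps_app, comps_pc, comps, List.nil_append, List.cons_append, List.append_assoc,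
    List.length_append, List.length_cons, List.length_nil] at e0 hl
  all_goals try omega
  · -- 0
    have h1 : R = pc (c + 2) := comps_inj (by rw [comps_pc]; exact (List.cons.inj e0).2)
    exact absurd h1 (hRp _)
  · -- 4
    have h1 := (pair_last38 e0).2
    injection h1 with _ _ h2
    exact absurd h2 (hp d)
  · -- 6
    exact absurd (List.cons.inj (List.cons.inj e0).2).1 (hRp _)
  · -- 7
    have h1 := (List.cons.inj e0).1
    exact (hU.nil' (by omega) (L := comps R) (L' := []) (by rw [← h1, comps_app]; rfl)).elim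
  · -- 9
    have h1 := (List.cons.inj (List.cons.inj e0).2).1
    injection h1 with _ h2 _
    exact absurd h2 (hRp _)
  · -- 10
    exfalso
    have h1 : comps B = [] := List.length_eq_zero_iff.1 (by omega)
    rw [h1] at e0
    have h2 := pair_last38 e0
    have h3 := congrArg BinaryTree.numNodes h2.2
    change (pc (d + 1)).numNodes + 0 + 1 = _ at h3
    rw [pc_num, pc_num] at h3
    have h4 := h.mem
    rw [← h.eq, comps_inj (t := B) (t' := .nil) h1, cont_nil, zero_add] at h4
    have h5 : S = U △ .nil := comps_inj h2.1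
    rw [h5, cont_node, cont_nil, add_zero] at h4
    unfold raise at h4
    rcases Multiset.mem_cons.1 h4 with h6 | h6
    · have h7 := Multiset.le_sup hU.2
      omega
    · have := hU.1 _ (Multiset.mem_of_mem_erase h6)
      omega
  · -- 13
    have h1 := (List.cons.inj e0).1
    refine (hU.nil' (by omega) (L := comps (pc (d + 1))) (L' := comps B) ?_).elim
    rw [← h1, comps_app]
    rfl
  · -- 14
    have h1 := (pair_last38 e0).2
    have h2 := congrArg comps h1
    rw [comps_app, hs] at h2
    have h3 := congrArg List.length h2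
    simp [comps_node, comps_pc, comps, pc] at h3
  · -- 15
    have h1 : comps B = [] := List.length_eq_zero_iff.1 (by omega)
    rw [h1] at e0
    have h2 := List.cons.inj e0
    have h3 := (List.cons.inj h2.2).1
    refine ⟨?_, comps_inj h1, h2.1⟩
    have h4 := congrArg BinaryTree.numNodes h3
    rw [pc_num, pc_num] at h4
    omega
  · -- 17
    exfalso
    have h1 := (List.cons.inj e0).1
    have h3 := (List.cons.inj (List.cons.inj e0).2).1
    have h4 := congrArg BinaryTree.numNodes h3
    rw [pc_num, pc_num] at h4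
    exact hU.BS h (by omega) (by rw [← h1, comps_app]; rfl)
  · -- 19
    have h1 := (List.cons.inj (List.cons.inj e0).2).1
    injection h1 with _ _ h2
    exact absurd h2 hSn

/-- the word `U[c+1]` -/
theorem awCb_1 (h : A0D d R B S) {i : ℕ} (hi : i < 20) (hc : 2 ≤ c) (hU : BareC c U)
    (e : aw R (pc (d + 1)) B S i = w1 U (pc c) .nil) : i = 0 ∨ i = 10 := by
  obtain ⟨c, rfl⟩ : ∃ c', c = c' + 2 := ⟨c - 2, by omega⟩
  by_contra hcon
  push Not at hcon
  have hRn := h.R_ne
  have hSn := h.S_ne
  have hRp := h.R_pc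
  have hp : ∀ n, pc (n + 1) ≠ .nil := fun n => pc_ne (by omega)
  obtain ⟨⟨r, R1, R2, r', hr, hr', hr0, hr0'⟩, ⟨s, S1, S2, s', hs, hs', hs0, hs0'⟩, hB⟩ := h.dat
  have e0 := congrArg comps e
  have e' : comps (w1 U (pc (c + 2)) .nil) = comps U ++ [pc (c + 2)] := by rw [comps_w1]; rfl
  rw [e'] at e0
  have hl := congrArg List.length e0
  have hU0 : 1 ≤ (comps U).length := by
    have := hU.ne
    cases U with
    | nil => exact absurd rfl this
    | node _ A C => change 1 ≤ (comps C).length + 1; omega
  have hlast : ∀ (L : List (BinaryTree Unit)) (A : BinaryTree Unit), L ++ [A] = comps U ++ [pc (c + 2)] → A = pc (c + 2) ∧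
      comps U = L := by
    intro L A h1
    have h3 := snoc_inj h1
    exact ⟨h3.2, h3.1.symm⟩
  -- `S` at the end
  have hd0 : ∀ L : List (BinaryTree Unit), L ++ comps S = comps U ++ [pc (c + 2)] → d ≤ c ∧ comps U = L ++ S2 := by
    intro L h1
    have h2 := hlast (L ++ S2) s' (by rw [← h1, hs', List.append_assoc])
    refine ⟨?_, h2.2⟩
    by_contra h3
    exact lo_ne_pc hs0' (show c + 2 < d + 2 by omega) h2.1
  interval_cases i
  · exact hcon.1 rfl
  · -- 1
    have h1 : comps R = R2 ++ [r'] := hr'
    have h2 := hlast (.nil :: pc d :: .nil :: R2) r' (by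
      rw [← e0]
      simp [aw, comps_node, comps_app, comps, comps_pc, h1])
    exact hU.nil' (by omega) (L := []) h2.2
  · -- 2
    have h1 := (hlast ([pc d, .nil] ++ comps R) .nil (by rw [← e0]; simp [aw, comps_node, comps_app, comps, comps_pc])).1
    exact hp (c + 1) h1.symm
  · simp only [aw, comps_node, comps, List.length_append, List.length_cons, List.length_nil] at hl
    omega
  · -- 4
    have h1 := (hlast (comps R) (.nil △ pc (d + 1)) (by rw [← e0]; simp [aw, comps_node, comps_app, comps])).1
    injection h1 with _ _ h2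
    exact absurd h2 (hp d)
  · -- 5
    have h1 := hlast (comps R ++ [.nil]) (pc (d + 1)) (by rw [← e0]; simp [aw, comps_node, comps_app, comps])
    exact hU.nil' (by omega) h1.2
  · -- 6
    have h1 := hlast [pc (d + 1)] R (by rw [← e0]; simp [aw, comps_node, comps])
    exact hRp _ h1.1
  · -- 7
    have h1 := hlast [app R (.nil △ .nil)] (pc d) (by rw [← e0]; simp [aw, comps_node, comps, comps_pc])
    exact hU.bead (by omega) hRn (L := []) (L' := []) h1.2
  · -- 8
    have h1 := hlast [R, .nil] (pc d) (by rw [← e0]; simp [aw, comps_node, comps, comps_pc])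
    exact hU.nil' (by omega) (L := [R]) (L' := []) h1.2
  · -- 9
    have h1 := hlast [pc d] (R △ .nil) (by rw [← e0]; simp [aw, comps_node, comps, comps_app, comps_pc])
    have h2 := h1.1
    injection h2 with _ h3 _
    exact hRp _ h3
  · exact hcon.2 rfl
  · -- 11
    rcases hB with hB | ⟨b, B1, B2, b', hBn, hb, hb', hb0, hb0'⟩
    · have h1 := (hlast (comps S ++ [.nil, pc d]) .nil (by
        rw [← e0, hB]; simp [aw, comps_node, comps_app, comps, comps_pc])).1
      exact hp (c + 1) h1.symm
    · have h1 := (hlast (comps S ++ .nil :: pc d :: .nil :: B2) b' (by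
        rw [← e0]; simp [aw, comps_node, comps_app, comps, comps_pc, hb'])).2
      exact hU.nil' (by omega) h1
  · -- 12
    have h1 := (hlast ([pc d, .nil] ++ comps B) S (by rw [← e0]; simp [aw, comps_node, comps_app, comps, comps_pc])).2
    exact hU.nil' (by omega) (L := [pc d]) (L' := comps B) h1
  · -- 13
    obtain ⟨hdc, h1⟩ := hd0 [app (pc (d + 1)) (.nil △ B)] (by rw [← e0]; simp [aw, comps_node])
    exact hU.bead (by omega) (hp d) (L := []) h1
  · -- 14
    have h1 := (hlast (comps B) (app S (.nil △ pc (d + 1))) (by rw [← e0]; simp [aw, comps_node, comps_app, comps])).1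
    have h2 := congrArg comps h1
    rw [comps_app, hs] at h2
    have h3 := congrArg List.length h2
    simp [comps_node, comps_pc] at h3
  · -- 15
    have h1 := hlast (comps B ++ [S]) (pc (d + 1)) (by rw [← e0]; simp [aw, comps_node, comps_app, comps])
    have h4 := congrArg BinaryTree.numNodes h1.1
    rw [pc_num, pc_num] at h4
    exact hU.BS h (by omega) h1.2
  · -- 16
    obtain ⟨hdc, h1⟩ := hd0 [pc (d + 1), B] (by rw [← e0]; simp [aw, comps_node])
    have h2 := hU.comp (L := []) (A := pc (d + 1)) (L' := B :: S2) h1 (x := d + 2) (by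
      rw [cont_pc]
      unfold raise
      rw [Multiset.sup_singleton]
      exact Multiset.mem_cons_self _ _)
    omega
  · -- 17
    have h1 := hlast [app B (S △ .nil)] (pc d) (by rw [← e0]; simp [aw, comps_node, comps, comps_pc])
    have h4 := congrArg BinaryTree.numNodes h1.1
    rw [pc_num, pc_num] at h4
    exact hU.BS' h (by omega) h1.2
  · -- 18
    have h1 := hlast (B :: comps S ++ [.nil]) (pc d) (by rw [← e0]; simp [aw, comps_node, comps_app, comps, comps_pc])
    exact hU.nil' (by omega) (L := B :: comps S) (L' := []) h1.2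
  · -- 19
    have h1 := hlast [pc d] (B △ S) (by rw [← e0]; simp [aw, comps_node, comps, comps_app, comps_pc])
    have h2 := h1.1
    injection h2 with _ _ h3
    exact hSn h3

/-- the word `[c]()U` -/
theorem awCb_2 (h : A0D d R B S) {i : ℕ} (hi : i < 20) (hc : 2 ≤ c) (hU : BareC c U)
    (e : aw R (pc (d + 1)) B S i = w1 (pc c) .nil U) : c = d + 2 ∧ B = .nil ∧ S = U := by
  obtain ⟨c, rfl⟩ : ∃ c', c = c' + 2 := ⟨c - 2, by omega⟩
  have hRn := h.R_ne
  have hSn := h.S_ne
  have hRp := h.R_pc
  have hp : ∀ n, pc (n + 1) ≠ .nil := fun n => pc_ne (by omega)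
  obtain ⟨⟨r, R1, R2, r', hr, hr', hr0, hr0'⟩, ⟨s, S1, S2, s', hs, hs', hs0, hs0'⟩, hB⟩ := h.dat
  have hRm : ∀ A ∈ comps R, A ≠ .nil := fun A hA => lo_ne_nil (lo_zero fun x hx => h.hv x (mem_comps hA hx))
  have hSm : ∀ A ∈ comps S, A ≠ .nil := fun A hA => lo_ne_nil (lo_zero fun x hx => h.hvS x (mem_comps hA hx))
  have hBm : ∀ A ∈ comps B, A ≠ .nil := fun A hA => lo_ne_nil (lo_zero fun x hx => h.hvB x (mem_comps hA hx))
  have e0 := congrArg comps e
  have e' : comps (w1 (pc (c + 2)) .nil U) = pc (c + 1) :: .nil :: comps U := by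
    rw [comps_w1, comps_pc]
    rfl
  rw [e'] at e0
  have hl := congrArg List.length e0
  have hU0 : 1 ≤ (comps U).length := by
    have := hU.ne
    cases U with
    | nil => exact absurd rfl this
    | node _ A C => change 1 ≤ (comps C).length + 1; omega
  interval_cases i
  · -- 0
    have h1 : comps R = .nil :: comps U := by
      have h2 : (pc (d + 1) △ .nil) :: comps R = pc (c + 1) :: .nil :: comps U := by rw [← e0]; simp [aw, comps_node]
      exact (List.cons.inj h2).2
    exact absurd rfl (hRm .nil (by rw [h1]; simp))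
  · -- 1
    exact absurd (List.cons.inj e0).1.symm (hp c)
  · -- 2
    have h1 : pc d :: .nil :: (comps R ++ [.nil]) = pc (c + 1) :: .nil :: comps U := by
      rw [← e0]; simp [aw, comps_node, comps_app, comps, comps_pc]
    have h2 := (List.cons.inj (List.cons.inj h1).2).2
    exact (hU.nil' (by omega) h2.symm).elim
  · simp only [aw, comps_node, comps, List.length_append, List.length_cons, List.length_nil] at hl
    omega
  · -- 4
    exfalso
    have h1 : r :: (R1 ++ [.nil △ pc (d + 1)]) = pc (c + 1) :: .nil :: comps U := by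
      rw [← e0]; simp [aw, comps_node, comps_app, comps, hr]
    have h2 := (List.cons.inj h1).2
    cases R1 with
    | nil =>
      have h3 := congrArg List.length h2
      simp at h3
      exact hU.ne (comps_inj (h3.trans rfl))
    | cons x R1 => exact hRm .nil (by rw [hr]; simp [(List.cons.inj h2).1]) rfl
  · -- 5
    exfalso
    have h1 : r :: (R1 ++ [.nil, pc (d + 1)]) = pc (c + 1) :: .nil :: comps U := by
      rw [← e0]; simp [aw, comps_node, comps_app, comps, hr]
    have h2 := (List.cons.inj h1).2
    cases R1 with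
    | nil =>
      have h3 : R = pc (c + 2) := comps_inj (by rw [hr, (List.cons.inj h1).1, comps_pc])
      exact hRp _ h3
    | cons x R1 => exact hRm .nil (by rw [hr]; simp [(List.cons.inj h2).1]) rfl
  · simp only [aw, comps_node, comps, List.length_append, List.length_cons, List.length_nil] at hl
    omega
  · simp only [aw, comps_node, comps, comps_pc, List.length_append, List.length_cons, List.length_nil] at hl
    omega
  · -- 8
    exact absurd (List.cons.inj e0).1 (hRp _)
  · simp only [aw, comps_node, comps, comps_app, comps_pc, List.length_append, List.length_cons, List.length_nil] at hl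
    omega
  · -- 10
    exfalso
    have h1 : s :: (S1 ++ (pc (d + 1) △ .nil) :: comps B) = pc (c + 1) :: .nil :: comps U := by
      rw [← e0]; simp [aw, comps_node, comps_app, comps, hs]
    have h2 := (List.cons.inj h1).2
    cases S1 with
    | nil => exact absurd (List.cons.inj h2).1 (by simp)
    | cons x S1 => exact hSm .nil (by rw [hs]; simp [(List.cons.inj h2).1]) rfl
  · -- 11
    exfalso
    have h1 : s :: (S1 ++ .nil :: pc d :: .nil :: comps B) = pc (c + 1) :: .nil :: comps U := by
      rw [← e0]; simp [aw, comps_node, comps_app, comps, comps_pc, hs]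
    have h2 := (List.cons.inj h1).2
    cases S1 with
    | nil => exact hU.nil' (by omega) (L := [pc d]) (L' := comps B) (List.cons.inj h2).2.symm
    | cons x S1 => exact hSm .nil (by rw [hs]; simp [(List.cons.inj h2).1]) rfl
  · -- 12
    exfalso
    have h1 : pc d :: .nil :: (comps B ++ [S]) = pc (c + 1) :: .nil :: comps U := by
      rw [← e0]; simp [aw, comps_node, comps_app, comps, comps_pc]
    have h2 := (List.cons.inj (List.cons.inj h1).2).2
    have h4 := congrArg BinaryTree.numNodes (List.cons.inj h1).1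
    rw [pc_num, pc_num] at h4
    exact hU.BS h (by omega) h2.symm
  · -- 13
    exfalso
    have h1 : (app (pc (d + 1)) (.nil △ B)) :: comps S = pc (c + 1) :: .nil :: comps U := by
      rw [← e0]; simp [aw, comps_node]
    exact hSm .nil (by rw [(List.cons.inj h1).2]; simp) rfl
  · -- 14
    exfalso
    rcases hB with hB | ⟨b, B1, B2, b', hBn, hb, hb', hb0, hb0'⟩
    · rw [hB] at hl
      simp only [aw, comps_node, comps, comps_app, List.length_append, List.length_cons, List.length_nil] at hl
      omega
    · have h1 : b :: (B1 ++ [app S (.nil △ pc (d + 1))]) = pc (c + 1) :: .nil :: comps U := by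
        rw [← e0]; simp [aw, comps_node, comps_app, comps, hb]
      have h2 := (List.cons.inj h1).2
      cases B1 with
      | nil =>
        have h3 := congrArg List.length h2
        simp at h3
        exact hU.ne (comps_inj (h3.trans rfl))
      | cons x B1 => exact hBm .nil (by rw [hb]; simp [(List.cons.inj h2).1]) rfl
  · -- 15
    exfalso
    rcases hB with hB | ⟨b, B1, B2, b', hBn, hb, hb', hb0, hb0'⟩
    · rw [hB] at hl
      simp only [aw, comps_node, comps, comps_app, List.length_append, List.length_cons, List.length_nil] at hl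
      omega
    · have h1 : b :: (B1 ++ [S, pc (d + 1)]) = pc (c + 1) :: .nil :: comps U := by
        rw [← e0]; simp [aw, comps_node, comps_app, comps, hb]
      have h2 := (List.cons.inj h1).2
      cases B1 with
      | nil => exact hSn (List.cons.inj h2).1
      | cons x B1 => exact hBm .nil (by rw [hb]; simp [(List.cons.inj h2).1]) rfl
  · -- 16
    have h1 := (List.cons.inj e0).1
    have h2 := (List.cons.inj (List.cons.inj e0).2)
    refine ⟨?_, h2.1, comps_inj h2.2⟩
    have h4 := congrArg BinaryTree.numNodes h1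
    rw [pc_num, pc_num] at h4
    omega
  · simp only [aw, comps_node, comps, comps_pc, List.length_append, List.length_cons, List.length_nil] at hl
    omega
  · -- 18
    exfalso
    have h1 : B :: s :: (S1 ++ [.nil, pc d]) = pc (c + 1) :: .nil :: comps U := by
      rw [← e0]; simp [aw, comps_node, comps_app, comps, comps_pc, hs]
    exact hSm .nil (by rw [hs, (List.cons.inj (List.cons.inj h1).2).1]; simp) rfl
  · simp only [aw, comps_node, comps, comps_app, comps_pc, List.length_append, List.length_cons, List.length_nil] at hl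
    omega

/-- the words of the content link over `U` among the words of a mirrored bead free window -/
theorem aw_Cb (h : A0D d R B S) {i : ℕ} (hi : i < 20) (hc : 2 ≤ c) (hU : BareC c U)
    (hn : aw R (pc (d + 1)) B S 0 ≠ w1 U (pc c) .nil)
    (hn' : aw R (pc (d + 1)) B S 10 ≠ w1 U (pc c) .nil) :
    aw R (pc (d + 1)) B S i ≠ w1 .nil U (pc c) ∧
    aw R (pc (d + 1)) B S i ≠ w1 U (pc c) .nil ∧
    aw R (pc (d + 1)) B S i ≠ w1 (pc c) .nil U := by
  have key : ¬ (c = d + 2 ∧ B = .nil ∧ S = U) := by
    rintro ⟨rfl, rfl, rfl⟩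
    apply hn'
    rfl
  refine ⟨fun e => key (awCb_0 h hi hc hU e), fun e => ?_, fun e => key (awCb_2 h hi hc hU e)⟩
  rcases awCb_1 h hi hc hU e with rfl | rfl
  · exact hn e
  · exact hn' e

theorem TyC.tri38 (h : TyC (c + 1) U F g) : IsTri .nil U (pc (c + 1)) F g := by
  have := h
  unfold TyC at this
  rwa [H1.ch_eq] at this

/-- the T-cycle of `U[c+1]` is a new one -/
theorem tyC_mem38 (h : TyC (c + 1) U F g) {w : X k} (hw : w.1 = w1 U (pc (c + 1)) .nil) : cyc w ∈ F := by
  obtain ⟨b, c, hb, hc, rfl⟩ := tri_F h.tri38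
  left
  have : w = b := Subtype.ext (hw.trans hb.symm)
  rw [this]

theorem HM.NodeM.aw_n38 {q : ℕ} (h1 : NodeM k q R B S) (w0 : X k) (h' : TyC (c + 1) U F' g')
    (hd : cyc (mX R B S q w0 0) ∉ F') {i : ℕ} (hi : i = 0 ∨ i = 10) :
    aw (Tsq.mir R) (pc (q + 1)) (Tsq.mir B) (Tsq.mir S) i ≠ w1 U (pc (c + 1)) .nil := by
  intro e
  apply hd
  rcases hi with rfl | rfl
  · exact tyC_mem38 h' ((h1.word' w0 (by norm_num)).trans e)
  · have h2 := tyC_mem38 h' ((h1.word' w0 (by norm_num)).trans e)
    rwa [← cyc_eq.2 (h1.same10 w0)] at h2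

theorem HM.NodeM.disj_Cb {q : ℕ} (h1 : NodeM k q R B S) (w0 : X k) (hc : 2 ≤ c) (hU : BareC c U) (h' : TyC c U F' g')
    (hd : cyc (mX R B S q w0 0) ∉ F') {i : ℕ} (hi : i < 20) : mX R B S q w0 i ∉ g'.B := by
  intro hw'
  obtain ⟨c, rfl⟩ : ∃ c', c = c' + 1 := ⟨c - 1, by omega⟩
  obtain ⟨k1, k2, k3⟩ := aw_Cb h1.a0d hi hc hU (h1.aw_n38 w0 h' hd (Or.inl rfl)) (h1.aw_n38 w0 h' hd (Or.inr rfl))
  rcases h'.tri38.words _ hw' with e1 | ⟨_, e1 | e1⟩ <;> rw [h1.word' w0 hi] at e1
  · exact k1 e1
  · exact k2 e1
  · exact k3 e1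

/-- **W-A0-Cb** -/
theorem TyA0.disj_Cb (h : TyA0 F g) (hc : 2 ≤ c) (hU : BareC c U) (h' : TyC c U F' g') (hd : ∀ c ∈ F, c ∉ F') :
    ∀ w ∈ g.B, w ∉ g'.B := by
  obtain ⟨q, R, B, S, w0, h1, hne, rfl, rfl⟩ := h
  intro w hw
  obtain ⟨i, hi, rfl⟩ := mem_gad20M.1 hw
  exact h1.disj_Cb w0 hc hU h' (hd _ rfl) hi

/-- **W-B0-Cb** -/
theorem TyB0.disj_Cb (h : TyB0 F g) (hc : 2 ≤ c) (hU : BareC c U) (h' : TyC c U F' g') (hd : ∀ c ∈ F, c ∉ F') :
    ∀ w ∈ g.B, w ∉ g'.B := by
  obtain ⟨q, R, B, S, w0, h1, hne, h12, h18, rfl, rfl⟩ := h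
  intro w hw
  obtain ⟨i, hi, _, rfl⟩ := mem_gadSM.1 hw
  exact h1.disj_Cb w0 hc hU h' (hd _ (Or.inl rfl)) hi

end Pool.OddHC
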