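import Pool.Agent.Work.MP_8f87b2_h38.DnB
import Pool.Agent.Work.MP_8f87b2_h58.InA0
set_option autoImplicit false
set_option linter.all false

/-!
# MP_8f87b2_co: inner words of the mirrored windows A0, B0 against the right content links over a bare word
-/

namespace Pool.OddHC
open Finset Equiv BinaryTree Pool.Agent.Work.MP_8f87b2_co HM H1
variable {k : ℕ} {F F' : Set (Cyc k)} {g g' : DG k} {c q : ℕ} {R B S U : BinaryTree Unit}

theorem BareC.vb (hc : 2 ≤ c) (h : BareC c U) : vb 0 U :=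
  (nb_hv (hv_of_cont fun x hx => by have := h.1 x hx; omega)).vb 0

theorem BareC.ht (h : BareC c U) : c + 1 ≤ OddHC.ht U := by
  rw [OddHC.ht_eq]
  exact Multiset.le_sup h.2

/-- inner words of a window whose group is bare -/
theorem inn_Cb (hc : 2 ≤ c) (hU : BareC c U) (h' : TyC c U F' g') {w : X k} (h1 : InnP (q + 3) w.1)
    (h2 : (cyc w ∉ F' ∧ ∀ x ∈ cont w.1, q + 3 ≤ x) ∨ Sml (q + 3) w.1) (hh : cyc w ∉ F' → w.1 ≠ w1 .nil U (pc c)) :
    w ∉ g'.B := by
  obtain ⟨c, rfl⟩ : ∃ c', c = c' + 1 := ⟨c - 1, by omega⟩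
  rcases h2 with ⟨h2, h3⟩ | h2
  · intro hw
    rcases h'.tri38.words _ hw with e1 | ⟨e1, _⟩
    · exact hh h2 e1
    · exact h2 e1
  · exact h1.not_C h2 h' (by omega) (BareC.vb hc hU) (fun x hx => Or.inr (hU.1 x hx)) hU.ht

/-- the T-cycle of a bare window -/
theorem HM.NodeM.cont38 (h : NodeM k q R B S) {w0 w : X k} (e : cyc w = cyc (mX R B S q w0 0)) :
    cont w.1 = cont R + {q + 3} := by
  rw [cont_same (cyc_eq.1 e), h.cont0]

/-- the T-cycle of a bare window is not the T-cycle of a host `(U)[c]` -/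
theorem HM.NodeM.not_host (h : NodeM k q R B S) (hc : 2 ≤ c) (hU : BareC c U) {w0 w : X k}
    (e : cyc w = cyc (mX R B S q w0 0)) : w.1 ≠ w1 .nil U (pc c) := by
  intro e1
  obtain ⟨c, rfl⟩ : ∃ c', c = c' + 1 := ⟨c - 1, by omega⟩
  have h1 := h.cont38 e
  have h2 : cont w.1 = raise (cont U) + {c + 1} := by
    rw [e1]
    change cont (app .nil (U △ pc (c + 1))) = _
    change cont (U △ pc (c + 1)) = _
    rw [cont_node, cont_pc]
  rw [h1] at h2
  have hr : ∀ x ∈ raise (cont U), c + 2 ≤ x := by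
    intro x hx
    unfold raise at hx
    rcases Multiset.mem_cons.1 hx with h5 | h5
    · have := Multiset.le_sup hU.2
      omega
    · exact hU.1 x (Multiset.mem_of_mem_erase h5)
  have h3 : q + 3 ∈ raise (cont U) + {c + 1} := by
    rw [← h2]
    exact Multiset.mem_add.2 (Or.inl h.mem)
  have h4 : c + 1 ∈ cont R + {q + 3} := by
    rw [h2]
    exact Multiset.mem_add.2 (Or.inr (Multiset.mem_singleton_self _))
  have h5 : q + 3 ≤ c + 1 := by
    rcases Multiset.mem_add.1 h4 with h6 | h6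
    · exact h.part _ h6
    · rw [Multiset.mem_singleton.1 h6]
  have h6 : c + 1 = q + 3 := by
    rcases Multiset.mem_add.1 h3 with h7 | h7
    · have := hr _ h7
      omega
    · exact (Multiset.mem_singleton.1 h7).symm
  have h7 := congrArg (Multiset.count (q + 3)) h2
  rw [Multiset.count_add, Multiset.count_add, h6, Multiset.count_singleton_self] at h7
  have h8 : Multiset.count (q + 3) (raise (cont U)) = 0 := by
    rw [Multiset.count_eq_zero]
    intro h9
    have := hr _ h9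
    omega
  have h9 := Multiset.count_pos.2 h.mem
  omega

/-- **I-A0-Cb** -/
theorem TyA0.inner_Cb (h : TyA0 F g) (hc : 2 ≤ c) (hU : BareC c U) (h' : TyC c U F' g') (hd : ∀ c ∈ F, c ∉ F') :
    ∀ p ∈ g.arcs, ∀ w ∈ innA p, w ∉ g'.B := by
  obtain ⟨q, R, B, S, w0, h1, rfl, h2⟩ := h.inn
  intro p hp w hw
  obtain ⟨i, hi, e⟩ := h2 p hp
  rw [e] at hw
  obtain rfl : w = _ := hw
  by_cases h0 : i = 0
  · subst h0
    have h3 := NodeM.cyc0 h1 w0
    refine inn_Cb hc hU h' (h1.inn w0 hi).2 (Or.inl ⟨?_, ?_⟩) (fun _ => h1.not_host hc hU h3)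
    · rw [h3]
      exact hd _ rfl
    · intro x hx
      rw [h1.cont38 h3] at hx
      rcases Multiset.mem_add.1 hx with h4 | h4
      · exact h1.part x h4
      · rw [Multiset.mem_singleton.1 h4]
  · have hs := (h1.sml w0 (i := i) (by
      simp only [List.mem_cons, List.not_mem_nil, or_false] at hi ⊢
      omega)).2
    exact (h1.inn w0 hi).2.not_C hs h' (by omega) (BareC.vb hc hU) (fun x hx => Or.inr (hU.1 x hx)) hU.ht

/-- the inner words of B0 -/
theorem TyB0.inn38 (h : TyB0 F g) : ∃ (q : ℕ) (R B S : BinaryTree Unit) (w0 : X k), HM.NodeM k q R B S ∧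
    ∀ p ∈ g.arcs, ∃ i ∈ [3, 6, 8], innA p = {Tsq.mirX (TT (wX R B S q w0 i))} := by
  obtain ⟨q, R, B, S, w0, h1, hne, h12, h18, rfl, rfl⟩ := h
  refine ⟨q, R, B, S, w0, h1, ?_⟩
  intro p hp
  have key : ∀ i j, (i, j) ∈ [(0, 10), (1, 11), (3, 12), (6, 15), (8, 14), (9, 17)] →
      p = (HM.mX R B S q w0 j, HM.mX R B S q w0 i) → innA p = {Tsq.mirX (TT (wX R B S q w0 i))} := by
    rintro i j hij rfl
    change ({TT (HM.mX R B S q w0 j)} : Set (X k)) = _
    rw [inner_mir h1 w0 hij]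
  have hp' : p = (HM.mX R B S q w0 12, HM.mX R B S q w0 3) ∨ p = (HM.mX R B S q w0 15, HM.mX R B S q w0 6) ∨
      p = (HM.mX R B S q w0 14, HM.mX R B S q w0 8) := hp
  rcases hp' with e | e | e
  · exact ⟨3, by simp, key 3 12 (by simp) e⟩
  · exact ⟨6, by simp, key 6 15 (by simp) e⟩
  · exact ⟨8, by simp, key 8 14 (by simp) e⟩

/-- **I-B0-Cb** -/
theorem TyB0.inner_Cb (h : TyB0 F g) (hc : 2 ≤ c) (hU : BareC c U) (h' : TyC c U F' g') :
    ∀ p ∈ g.arcs, ∀ w ∈ innA p, w ∉ g'.B := by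
  obtain ⟨q, R, B, S, w0, h1, h2⟩ := h.inn38
  intro p hp w hw
  obtain ⟨i, hi, e⟩ := h2 p hp
  rw [e] at hw
  obtain rfl : w = _ := hw
  have hi1 : i ∈ [0, 1, 3, 6, 8, 9] := by
    simp only [List.mem_cons, List.not_mem_nil, or_false] at hi ⊢
    omega
  have hs := (h1.sml w0 (i := i) (by
    simp only [List.mem_cons, List.not_mem_nil, or_false] at hi ⊢
    omega)).2
  exact (h1.inn w0 hi1).2.not_C hs h' (by omega) (BareC.vb hc hU) (fun x hx => Or.inr (hU.1 x hx)) hU.ht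

end Pool.OddHC
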