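import Pool.Agent.Work.MP_8f87b2_h13.R3DnB
import Pool.Agent.Work.MP_8f87b2_h38.DnBI
set_option autoImplicit false
set_option linter.all false

/-!
# MP_8f87b2_co: DOWN links over a bare word `U` with a part `3` (helper13's `DnB U`) against A0, B0
-/

namespace Pool.OddHC
open Finset Equiv BinaryTree Pool.Agent.Work.MP_8f87b2_co HM
variable {k : ℕ} {F F' : Set (Cyc k)} {g g' : DG k} {U : BinaryTree Unit}

theorem DnB.bareC (h : DnB U) (h3 : 3 ∈ cont U) : BareC 2 U := ⟨h.2, h3⟩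

theorem DnSh3.three (h : DnSh3 U) : 3 ∈ OddHC.cont U := by
  obtain ⟨Y, -, h2, -⟩ := h
  rw [h2, cont_app]
  exact Multiset.mem_add.2 (Or.inr (by
    rw [show OddHC.cont (pc 3) = {3} from cont_pc 2]
    exact Multiset.mem_singleton_self _))

theorem TyA0.disj_DnB (h : TyA0 F g) (hU : DnB U) (h3 : 3 ∈ cont U) (h' : TyC 2 U F' g') (hd : ∀ c ∈ F, c ∉ F') :
    ∀ w ∈ g.B, w ∉ g'.B := h.disj_Cb le_rfl (hU.bareC h3) h' hd

theorem TyB0.disj_DnB (h : TyB0 F g) (hU : DnB U) (h3 : 3 ∈ cont U) (h' : TyC 2 U F' g') (hd : ∀ c ∈ F, c ∉ F') :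
    ∀ w ∈ g.B, w ∉ g'.B := h.disj_Cb le_rfl (hU.bareC h3) h' hd

theorem TyA0.inner_DnB (h : TyA0 F g) (hU : DnB U) (h3 : 3 ∈ cont U) (h' : TyC 2 U F' g') (hd : ∀ c ∈ F, c ∉ F') :
    ∀ p ∈ g.arcs, ∀ w ∈ innA p, w ∉ g'.B := h.inner_Cb le_rfl (hU.bareC h3) h' hd

theorem TyB0.inner_DnB (h : TyB0 F g) (hU : DnB U) (h3 : 3 ∈ cont U) (h' : TyC 2 U F' g') :
    ∀ p ∈ g.arcs, ∀ w ∈ innA p, w ∉ g'.B := h.inner_Cb le_rfl (hU.bareC h3) h'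

end Pool.OddHC
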