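import Pool.Agent.Work.MP_8f87b2_h35.Gen20
import Pool.Agent.Work.MP_8f87b2_h38.CertD3

/-!
MP_8f87b2_co: DOWN in the odd case: twelve words, new T-cycles {0, 10} = z = R((Q)), {1, 11} = t = R()Q(), {4} = y = (Q())R; old words
2 = ()R()Q, 3 = (R()Q), 12 = (S)B()Q, 8 = Q()(R), 14 = (Q()S)B, 13 = S(B()Q), 18 = Q()S(B); arcs 3 -> 12, 8 -> 14.
-/

set_option autoImplicit false

set_option synthInstance.maxSize 1000

namespace Pool.OddHC

open Finset BinaryTree Equiv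

variable {k : ℕ}

/-- numbers of the words -/
def ixD3 : List ℕ := [0, 1, 2, 3, 4, 8, 10, 11, 12, 13, 14, 18]

/-- new T-cycles with one word -/
def sgD3 : List ℕ := [4]

/-- new T-cycles with two words -/
def prD3 : List (ℕ × ℕ) := [(0, 10), (1, 11)]

/-- arcs -/
def arD3 : List (ℕ × ℕ) := [(3, 12), (8, 14)]

/-- old words -/
def odD3 : List ℕ := [2, 3, 8, 12, 13, 14, 18]

/-- the gadget -/
noncomputable def gadD3 (w : ℕ → X k) : DG k := gadOf w ixD3 (sgD3 ++ prD3.map Prod.fst) arD3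

theorem okD3 : CertOk ixD3 sgD3 prD3 arD3 odD3 CertD3.A CertD3.F_0 CertD3.Z_0 CertD3.x0_0
    CertD3.z0_0 CertD3.al Cert.al := by
  refine ⟨?_, ?_, ?_, ?_, ?_, ?_, ?_, ?_, ?_, ?_, ?_, ?_, ?_, ?_, ?_⟩ <;> decide +kernel

/-- THE GADGET ABSORBS. -/
theorem gadD3_abs {R Q B S : BinaryTree Unit} (hR : Q.numNodes + R.numNodes + 2 = k)
    (hB : Q.numNodes + S.numNodes + B.numNodes + 2 = k)
    {w : ℕ → X k} (hw : ∀ i ∈ ixD3, (w i).1 = w20 R Q B S i)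
    (hinj : ∀ i ∈ ixD3, ∀ j ∈ ixD3, w i = w j → i = j)
    (hpair : ∀ p ∈ prD3, TT.SameCycle (w p.1) (w p.2))
    (hsep : ∀ i ∈ sgD3 ++ prD3.map Prod.fst, ∀ j ∈ sgD3 ++ prD3.map Prod.fst,
      TT.SameCycle (w i) (w j) → i = j)
    (hold : ∀ i ∈ sgD3 ++ prD3.map Prod.fst, ∀ j ∈ odD3, ¬ TT.SameCycle (w i) (w j)) :
    (gadD3 w).Abs :=
  gadOf_abs hR hB okD3 CertD3.runD3 hw hinj hpair hsep hold

end Pool.OddHC
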