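import Pool.Agent.Work.MP_8f87b2_h38.GadD3
import Pool.Agent.Work.MP_8f87b2_h38.CertD3b
import Pool.Agent.Work.MP_8f87b2_h38.CertD3f
import Pool.Agent.Work.MP_8f87b2_h38.CertD3g

/-!
MP_8f87b2_co: the gadget `gadD3` absorbs in all cases: word 13 on the T-cycle of word 4 or not, word 0 = word 10 (`z` fixed by `T`) or
not.
-/

set_option autoImplicit false

set_option synthInstance.maxSize 1000

namespace Pool.OddHC

open Finset BinaryTree Equiv

variable {k : ℕ}

namespace D3

/-- allowed images with word 0 = word 10 -/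
def alG : List ℕ := [49201, 22, 44, 11, 400, 224, 321, 644, 770, 584, 0, 22528, 45056, 10241, 409600, 229376,
  327681, 659456, 788480, 598016]

theorem alG_cases : ∀ i j : Fin 20, Abs.bit (alG.getD i.1 0) j.1 = true →
    (i.1 < 10 ∧ j.1 < 10 ∧ Abs.bit (bal.getD i.1 0) j.1 = true) ∨
      (10 ≤ i.1 ∧ 10 ≤ j.1 ∧ Abs.bit (bal.getD (i.1 - 10) 0) (j.1 - 10) = true) ∨
      (i.1 = 0 ∧ 10 ≤ j.1 ∧ Abs.bit (bal.getD 0 0) (j.1 - 10) = true) ∨
      (j.1 = 0 ∧ 10 ≤ i.1 ∧ Abs.bit (bal.getD (i.1 - 10) 0) 0 = true) := by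
  decide

/-- star positions in one frame for both blocks when word 0 = word 10 -/
def sG (k q s i : ℕ) : ZMod (2 * k + 1) :=
  if i < 10 then (bs 0 q 0 0 i : ℕ) else ((bs 0 q 0 0 0 : ℕ) - (bs 0 q 0 s 0 : ℕ)) + (bs 0 q 0 s (i - 10) : ℕ)

theorem hfrG {R Q B S : BinaryTree Unit} (hR : Q.numNodes + R.numNodes + 2 = k)
    (hB : Q.numNodes + S.numNodes + B.numNodes + 2 = k)
    {w : ℕ → X k} (h0 : w 0 = w 10) (hw : ∀ i ∈ (0 : ℕ) :: 10 :: ixD3, (w i).1 = w20 R Q B S i) {i j : ℕ}
    (hi : i ∈ ixD3) (hj : j ∈ ixD3) (hb : Abs.bit (alG.getD i 0) j = true) :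
    io (w i) (sG k Q.numNodes S.numNodes i) ⊆
      insert (sG k Q.numNodes S.numNodes j) (io (w j) (sG k Q.numNodes S.numNodes j)) := by
  have hi20 : i < 20 := (by decide : ∀ i ∈ ixD3, i < 20) i hi
  have hj20 : j < 20 := (by decide : ∀ i ∈ ixD3, i < 20) j hj
  have wi := hw i (List.mem_cons_of_mem _ (List.mem_cons_of_mem _ hi))
  have wj := hw j (List.mem_cons_of_mem _ (List.mem_cons_of_mem _ hj))
  have w10 := hw 10 (by simp)
  have n1 : (BinaryTree.nil : BinaryTree Unit).numNodes + Q.numNodes + (BinaryTree.nil : BinaryTree Unit).numNodes +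
      (BinaryTree.nil : BinaryTree Unit).numNodes + R.numNodes + 2 = k := by
    change 0 + Q.numNodes + 0 + 0 + R.numNodes + 2 = k
    omega
  have n2 : (BinaryTree.nil : BinaryTree Unit).numNodes + Q.numNodes + (BinaryTree.nil : BinaryTree Unit).numNodes +
      S.numNodes + B.numNodes + 2 = k := by
    change 0 + Q.numNodes + 0 + S.numNodes + B.numNodes + 2 = k
    omega
  rcases alG_cases ⟨i, hi20⟩ ⟨j, hj20⟩ hb with ⟨h1, h2, h3⟩ | ⟨h1, h2, h3⟩ | ⟨h1, h2, h3⟩ | ⟨h1, h2, h3⟩
  · have h1' : i < 10 := h1
    have h2' : j < 10 := h2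
    have h4 := block_al (k := k) .nil Q .nil .nil R n1 h1' h2' (by rw [wi, w20, if_pos h1'])
      (by rw [wj, w20, if_pos h2']) h3 0
    unfold sG
    rw [if_pos h1', if_pos h2']
    rw [zero_add, zero_add] at h4
    exact h4
  · have h1' : 10 ≤ i := h1
    have h2' : 10 ≤ j := h2
    have h4 := block_al (k := k) .nil Q .nil S B n2 (show i - 10 < 10 by omega) (show j - 10 < 10 by omega)
      (by rw [wi, w20, if_neg (by omega)]) (by rw [wj, w20, if_neg (by omega)]) h3
      ((bs 0 Q.numNodes 0 0 0 : ℕ) - (bs 0 Q.numNodes 0 S.numNodes 0 : ℕ))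
    unfold sG
    rw [if_neg (by omega), if_neg (by omega)]
    exact h4
  · have h1' : i = 0 := h1
    have h2' : 10 ≤ j := h2
    subst h1'
    have h4 := block_al (k := k) .nil Q .nil S B n2 (show 0 < 10 by norm_num) (show j - 10 < 10 by omega)
      (x := w 10) (by rw [w10, w20, if_neg (by omega)]) (by rw [wj, w20, if_neg (by omega)]) h3
      ((bs 0 Q.numNodes 0 0 0 : ℕ) - (bs 0 Q.numNodes 0 S.numNodes 0 : ℕ))
    unfold sG
    rw [if_pos (by norm_num), if_neg (by omega), h0]
    rw [← h0] at h4 ⊢
    have e : ((bs 0 Q.numNodes 0 0 0 : ℕ) - (bs 0 Q.numNodes 0 S.numNodes 0 : ℕ) : ZMod (2 * k + 1)) +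
        (bs 0 Q.numNodes 0 S.numNodes 0 : ℕ) = (bs 0 Q.numNodes 0 0 0 : ℕ) := by ring
    have h5 : io (w 0) (((bs 0 Q.numNodes 0 0 0 : ℕ) - (bs 0 Q.numNodes 0 S.numNodes 0 : ℕ) :
        ZMod (2 * k + 1)) + (bs 0 Q.numNodes 0 S.numNodes 0 : ℕ)) ⊆ _ := h4
    rw [e] at h5
    exact h5
  · have h1' : j = 0 := h1
    have h2' : 10 ≤ i := h2
    subst h1'
    have h4 := block_al (k := k) .nil Q .nil S B n2 (show i - 10 < 10 by omega) (show 0 < 10 by norm_num)
      (y := w 10) (by rw [wi, w20, if_neg (by omega)]) (by rw [w10, w20, if_neg (by omega)]) h3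
      ((bs 0 Q.numNodes 0 0 0 : ℕ) - (bs 0 Q.numNodes 0 S.numNodes 0 : ℕ))
    unfold sG
    rw [if_neg (by omega), if_pos (by norm_num)]
    rw [← h0] at h4
    have e : ((bs 0 Q.numNodes 0 0 0 : ℕ) - (bs 0 Q.numNodes 0 S.numNodes 0 : ℕ) : ZMod (2 * k + 1)) +
        (bs 0 Q.numNodes 0 S.numNodes 0 : ℕ) = (bs 0 Q.numNodes 0 0 0 : ℕ) := by ring
    have h5 : _ ⊆ insert (((bs 0 Q.numNodes 0 0 0 : ℕ) - (bs 0 Q.numNodes 0 S.numNodes 0 : ℕ) :
        ZMod (2 * k + 1)) + (bs 0 Q.numNodes 0 S.numNodes 0 : ℕ)) (io (w 0) (((bs 0 Q.numNodes 0 0 0 : ℕ) -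
        (bs 0 Q.numNodes 0 S.numNodes 0 : ℕ) : ZMod (2 * k + 1)) + (bs 0 Q.numNodes 0 S.numNodes 0 : ℕ))) := h4
    rw [e] at h5
    exact h5

/-- words, `z` fixed -/
def ixF : List ℕ := [0, 1, 2, 3, 4, 8, 11, 12, 13, 14, 18]

/-- old words, 13 on the T-cycle of 4 -/
def odB : List ℕ := [2, 3, 8, 12, 14, 18]

theorem okB : CertOk ixD3 [] [(0, 10), (1, 11), (4, 13)] arD3 odB CertD3b.A CertD3b.F_0 CertD3b.Z_0 CertD3b.x0_0
    CertD3b.z0_0 CertD3b.al Cert.al := by
  refine ⟨?_, ?_, ?_, ?_, ?_, ?_, ?_, ?_, ?_, ?_, ?_, ?_, ?_, ?_, ?_⟩ <;> decide +kernel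

theorem okF : CertOk ixF [0, 4] [(1, 11)] arD3 odD3 CertD3f.A CertD3f.F_0 CertD3f.Z_0 CertD3f.x0_0
    CertD3f.z0_0 CertD3f.al alG := by
  refine ⟨?_, ?_, ?_, ?_, ?_, ?_, ?_, ?_, ?_, ?_, ?_, ?_, ?_, ?_, ?_⟩ <;> decide +kernel

theorem okG : CertOk ixF [0] [(1, 11), (4, 13)] arD3 odB CertD3g.A CertD3g.F_0 CertD3g.Z_0 CertD3g.x0_0
    CertD3g.z0_0 CertD3g.al alG := by
  refine ⟨?_, ?_, ?_, ?_, ?_, ?_, ?_, ?_, ?_, ?_, ?_, ?_, ?_, ?_, ?_⟩ <;> decide +kernel

/-- two gadgets on the same words -/
theorem gad_eq {w : ℕ → X k} {ix ix' rp rp' : List ℕ} {ar : List (ℕ × ℕ)}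
    (h1 : ∀ x, (∃ i ∈ ix, w i = x) ↔ ∃ i ∈ ix', w i = x)
    (h2 : ∀ x, (∃ c ∈ rp, TT.SameCycle (w c) x) ↔ ∃ c ∈ rp', TT.SameCycle (w c) x) :
    gadOf w ix rp ar = gadOf w ix' rp' ar := by
  classical
  have e1 : (gadOf w ix rp ar).B = (gadOf w ix' rp' ar).B := by
    ext x
    rw [mem_gadOf_B, mem_gadOf_B, h1]
  have e2 : (gadOf w ix rp ar).F = (gadOf w ix' rp' ar).F := by
    ext x
    exact h2 x
  have e3 : (gadOf w ix rp ar).arcs = (gadOf w ix' rp' ar).arcs := rfl
  revert e1 e2 e3
  generalize gadOf w ix rp ar = g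
  generalize gadOf w ix' rp' ar = g'
  intro e1 e2 e3
  cases g
  cases g'
  simp only at e1 e2 e3
  subst e1 e2 e3
  rfl

end D3

open D3 in
/-- **THE GADGET ABSORBS**, all cases -/
theorem gadD3_all {R Q B S : BinaryTree Unit} (hR : Q.numNodes + R.numNodes + 2 = k)
    (hB : Q.numNodes + S.numNodes + B.numNodes + 2 = k)
    {w : ℕ → X k} (hw : ∀ i ∈ ixD3, (w i).1 = w20 R Q B S i)
    (hinj : ∀ i ∈ ixD3, ∀ j ∈ ixD3, w i = w j → i = j ∨ (i = 0 ∧ j = 10) ∨ (i = 10 ∧ j = 0))
    (h10 : TT.SameCycle (w 0) (w 10)) (h11 : TT.SameCycle (w 1) (w 11))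
    (h01 : ¬ TT.SameCycle (w 0) (w 1)) (h04 : ¬ TT.SameCycle (w 0) (w 4)) (h14 : ¬ TT.SameCycle (w 1) (w 4))
    (hz : ∀ j ∈ odD3, ¬ TT.SameCycle (w 0) (w j)) (ht : ∀ j ∈ odD3, ¬ TT.SameCycle (w 1) (w j))
    (hy : ∀ j ∈ odB, ¬ TT.SameCycle (w 4) (w j)) :
    (gadD3 w).Abs := by
  have hzB : ∀ j ∈ odB, ¬ TT.SameCycle (w 0) (w j) := fun j hj => hz j ((by decide : ∀ j ∈ odB, j ∈ odD3) j hj)
  have htB : ∀ j ∈ odB, ¬ TT.SameCycle (w 1) (w j) := fun j hj => ht j ((by decide : ∀ j ∈ odB, j ∈ odD3) j hj)
  have hyo : ¬ TT.SameCycle (w 4) (w 13) → ∀ j ∈ odD3, ¬ TT.SameCycle (w 4) (w j) := by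
    intro h13 j hj
    rcases (by decide : ∀ j ∈ odD3, j = 13 ∨ j ∈ odB) j hj with rfl | h
    · exact h13
    · exact hy j h
  have sym : ∀ {a b : ℕ}, ¬ TT.SameCycle (w a) (w b) → ¬ TT.SameCycle (w b) (w a) := fun h e => h e.symm
  by_cases hg : w 0 = w 10
  · -- `z` is fixed
    have hF20 : ∀ i ∈ ixF, i ∈ ixD3 := by decide
    have hinj' : ∀ i ∈ ixF, ∀ j ∈ ixF, w i = w j → i = j := by
      intro i hi j hj e
      rcases hinj i (hF20 i hi) j (hF20 j hj) e with h | ⟨_, h⟩ | ⟨h, _⟩
      · exact h
      · rw [h] at hj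
        exact absurd hj (by decide)
      · rw [h] at hi
        exact absurd hi (by decide)
    have hfr : ∀ i ∈ ixF, ∀ j ∈ ixF, Abs.bit (alG.getD i 0) j = true →
        io (w i) (sG k Q.numNodes S.numNodes i) ⊆
          insert (sG k Q.numNodes S.numNodes j) (io (w j) (sG k Q.numNodes S.numNodes j)) := by
      intro i hi j hj hb
      refine hfrG hR hB hg ?_ (hF20 i hi) (hF20 j hj) hb
      intro i hi
      rcases List.mem_cons.1 hi with rfl | hi
      · exact hw 0 (by decide)
      · rcases List.mem_cons.1 hi with rfl | hi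
        · exact hw 10 (by decide)
        · exact hw i hi
    have hB' : ∀ x, (∃ i ∈ ixD3, w i = x) ↔ ∃ i ∈ ixF, w i = x := by
      intro x
      constructor
      · rintro ⟨i, hi, e⟩
        rcases (by decide : ∀ i ∈ ixD3, i = 10 ∨ i ∈ ixF) i hi with rfl | h
        · exact ⟨0, by decide, hg.trans e⟩
        · exact ⟨i, h, e⟩
      · rintro ⟨i, hi, e⟩
        exact ⟨i, hF20 i hi, e⟩
    by_cases h13 : TT.SameCycle (w 4) (w 13)
    · have key := gadOf_abs_aux (w := w) (fun i => sG k Q.numNodes S.numNodes i) okG CertD3g.runD3g hinj'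
        (by
          intro p hp
          simp only [List.mem_cons, List.not_mem_nil, or_false] at hp
          rcases hp with rfl | rfl
          · exact h11
          · exact h13)
        (by
          intro i hi j hj e
          simp only [List.map_cons, List.map_nil, List.cons_append, List.nil_append, List.mem_cons,
            List.not_mem_nil, or_false] at hi hj
          rcases hi with rfl | rfl | rfl <;> rcases hj with rfl | rfl | rfl
          · rfl
          · exact absurd e h01
          · exact absurd e h04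
          · exact absurd e (sym h01)
          · rfl
          · exact absurd e h14
          · exact absurd e (sym h04)
          · exact absurd e (sym h14)
          · rfl)
        (by
          intro i hi j hj e
          simp only [List.map_cons, List.map_nil, List.cons_append, List.nil_append, List.mem_cons,
            List.not_mem_nil, or_false] at hi
          rcases hi with rfl | rfl | rfl
          · exact hzB j hj e
          · exact htB j hj e
          · exact hy j hj e) hfr
      rw [gadD3, gad_eq hB' (rp' := [0] ++ [(1, 11), (4, 13)].map Prod.fst)]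
      · exact key
      · intro x
        simp only [sgD3, prD3, List.map_cons, List.map_nil, List.cons_append, List.nil_append, List.mem_cons,
          List.not_mem_nil, or_false]
        constructor
        · rintro ⟨c, rfl | rfl | rfl, e⟩
          · exact ⟨4, by simp, e⟩
          · exact ⟨0, by simp, e⟩
          · exact ⟨1, by simp, e⟩
        · rintro ⟨c, rfl | rfl | rfl, e⟩
          · exact ⟨0, by simp, e⟩
          · exact ⟨1, by simp, e⟩
          · exact ⟨4, by simp, e⟩
    · have key := gadOf_abs_aux (w := w) (fun i => sG k Q.numNodes S.numNodes i) okF CertD3f.runD3f hinj'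
        (by
          intro p hp
          simp only [List.mem_cons, List.not_mem_nil, or_false] at hp
          rcases hp with rfl
          exact h11)
        (by
          intro i hi j hj e
          simp only [List.map_cons, List.map_nil, List.cons_append, List.nil_append, List.mem_cons,
            List.not_mem_nil, or_false] at hi hj
          rcases hi with rfl | rfl | rfl <;> rcases hj with rfl | rfl | rfl
          · rfl
          · exact absurd e h04
          · exact absurd e h01
          · exact absurd e (sym h04)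
          · rfl
          · exact absurd e (sym h14)
          · exact absurd e (sym h01)
          · exact absurd e h14
          · rfl)
        (by
          intro i hi j hj e
          simp only [List.map_cons, List.map_nil, List.cons_append, List.nil_append, List.mem_cons,
            List.not_mem_nil, or_false] at hi
          rcases hi with rfl | rfl | rfl
          · exact hz j hj e
          · exact hyo h13 j hj e
          · exact ht j hj e) hfr
      rw [gadD3, gad_eq hB' (rp' := [0, 4] ++ [(1, 11)].map Prod.fst)]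
      · exact key
      · intro x
        simp only [sgD3, prD3, List.map_cons, List.map_nil, List.cons_append, List.nil_append, List.mem_cons,
          List.not_mem_nil, or_false]
        constructor
        · rintro ⟨c, rfl | rfl | rfl, e⟩
          · exact ⟨4, by simp, e⟩
          · exact ⟨0, by simp, e⟩
          · exact ⟨1, by simp, e⟩
        · rintro ⟨c, rfl | rfl | rfl, e⟩
          · exact ⟨0, by simp, e⟩
          · exact ⟨4, by simp, e⟩
          · exact ⟨1, by simp, e⟩
  · have hinj' : ∀ i ∈ ixD3, ∀ j ∈ ixD3, w i = w j → i = j := by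
      intro i hi j hj e
      rcases hinj i hi j hj e with h | ⟨rfl, rfl⟩ | ⟨rfl, rfl⟩
      · exact h
      · exact absurd e hg
      · exact absurd e.symm hg
    by_cases h13 : TT.SameCycle (w 4) (w 13)
    · have key := gadOf_abs (w := w) hR hB okB CertD3b.runD3b hw hinj'
        (by
          intro p hp
          simp only [List.mem_cons, List.not_mem_nil, or_false] at hp
          rcases hp with rfl | rfl | rfl
          · exact h10
          · exact h11
          · exact h13)
        (by
          intro i hi j hj e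
          simp only [List.map_cons, List.map_nil, List.nil_append, List.mem_cons,
            List.not_mem_nil, or_false] at hi hj
          rcases hi with rfl | rfl | rfl <;> rcases hj with rfl | rfl | rfl
          · rfl
          · exact absurd e h01
          · exact absurd e h04
          · exact absurd e (sym h01)
          · rfl
          · exact absurd e h14
          · exact absurd e (sym h04)
          · exact absurd e (sym h14)
          · rfl)
        (by
          intro i hi j hj e
          simp only [List.map_cons, List.map_nil, List.nil_append, List.mem_cons,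
            List.not_mem_nil, or_false] at hi
          rcases hi with rfl | rfl | rfl
          · exact hzB j hj e
          · exact htB j hj e
          · exact hy j hj e)
      rw [gadD3, gad_eq (ix' := ixD3) (fun _ => Iff.rfl) (rp' := [] ++ [(0, 10), (1, 11), (4, 13)].map Prod.fst)]
      · exact key
      · intro x
        simp only [sgD3, prD3, List.map_cons, List.map_nil, List.cons_append, List.nil_append, List.mem_cons,
          List.not_mem_nil, or_false]
        constructor
        · rintro ⟨c, rfl | rfl | rfl, e⟩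
          · exact ⟨4, by simp, e⟩
          · exact ⟨0, by simp, e⟩
          · exact ⟨1, by simp, e⟩
        · rintro ⟨c, rfl | rfl | rfl, e⟩
          · exact ⟨0, by simp, e⟩
          · exact ⟨1, by simp, e⟩
          · exact ⟨4, by simp, e⟩
    · refine gadD3_abs hR hB hw hinj' ?_ ?_ ?_
      · intro p hp
        simp only [prD3, List.mem_cons, List.not_mem_nil, or_false] at hp
        rcases hp with rfl | rfl
        · exact h10
        · exact h11
      · intro i hi j hj e
        simp only [sgD3, prD3, List.map_cons, List.map_nil, List.cons_append, List.nil_append, List.mem_cons,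
          List.not_mem_nil, or_false] at hi hj
        rcases hi with rfl | rfl | rfl <;> rcases hj with rfl | rfl | rfl
        · rfl
        · exact absurd e (sym h04)
        · exact absurd e (sym h14)
        · exact absurd e h04
        · rfl
        · exact absurd e h01
        · exact absurd e h14
        · exact absurd e (sym h01)
        · rfl
      · intro i hi j hj e
        simp only [sgD3, prD3, List.map_cons, List.map_nil, List.cons_append, List.nil_append, List.mem_cons,
          List.not_mem_nil, or_false] at hi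
        rcases hi with rfl | rfl | rfl
        · exact hyo h13 j hj e
        · exact hz j hj e
        · exact ht j hj e

end Pool.OddHC
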